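import Pool.Agent.Lib.MP_85de51_alP.Defs
set_option autoImplicit false

/-!
# JOB Rel: the value of the relator in associative algebras of characteristic `p`

`map_relL`: `Function.Semiconj.iterate_right` or induction on the exponents, with
`LieHom.map_lie`, `map_sub`.

`relL_assoc`: in a ring `⁅x, v⁆ = x * v - v * x` (`LieRing.of_associative_ring_bracket`).
Let `ad x = L_x - R_x` where `L_x`, `R_x : Module.End ℤ A` (or `AddMonoid.End A`) are left and
right multiplication by `x`; they commute, so in characteristic `p` (the ring `AddMonoid.End A`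
has `CharP` when `A` is nontrivial; `A` is nontrivial because of `CharP A p`, `p` prime)
`(L_x - R_x)^(p^a) = L_x^(p^a) - R_x^(p^a)` (`sub_pow_char_pow_of_commute` or
`sub_pow_expChar_pow_of_commute`), i.e. `(ad x)^q v = x^q v - v x^q` for `q = p^a`. Hence
`(ad y)^q x = y^q x - x y^q` with `y = x - u`. Next, `y^q x - x y^q = - ad x (y^q)`, so
`(ad x)^(q-1) (y^q x - x y^q) = - (ad x)^q (y^q) = - (x^q y^q - y^q x^q)`
(`q ≥ 1`, `Function.iterate_succ_apply`).

`relL_iff`: if `V` is trivial both sides are trivially true. Otherwise `Module.End k V` has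
characteristic `p` (`charP_of_injective_algebraMap`, `algebraMap k (Module.End k V)` is
injective as `k` is a field and the ring is nontrivial) and `relL_assoc` applies.
-/

namespace OneRelP

attribute [local instance 100] LieRing.ofAssociativeRing

/-- Lie homomorphisms preserve `relL`. -/
theorem map_relL {k L L' : Type*} [CommRing k] [LieRing L] [LieAlgebra k L] [LieRing L']
    [LieAlgebra k L'] (φ : L →ₗ⁅k⁆ L') (q : ℕ) (s u : L) :
    φ (relL q s u) = relL q (φ s) (φ u) := by
  have key : ∀ (x : L) (n : ℕ) (v : L),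
      φ ((fun v => ⁅x, v⁆)^[n] v) = (fun v => ⁅φ x, v⁆)^[n] (φ v) := by
    intro x n
    induction n with
    | zero => intro v; rfl
    | succ n ih =>
      intro v
      rw [Function.iterate_succ_apply, Function.iterate_succ_apply, ih, LieHom.map_lie]
  unfold relL
  rw [key, key]
  simp only [LieHom.map_lie, map_sub]

/-- In characteristic `p`, `(ad x)^q v = x^q v - v x^q` for `q = p^a`. -/
theorem ad_iter (p a : ℕ) [Fact p.Prime] {A : Type*} [Ring A] [CharP A p] (x v : A) :
    (fun w : A => ⁅x, w⁆)^[p ^ a] v = x ^ (p ^ a) * v - v * x ^ (p ^ a) := by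
  have hchar : CharP (Module.End ℤ A) p := by
    refine ⟨fun n => ⟨fun h => ?_, fun h => ?_⟩⟩
    · have h1 : ((n : Module.End ℤ A)) (1 : A) = 0 := by rw [h]; rfl
      rw [Module.End.natCast_apply, nsmul_one] at h1
      exact (CharP.cast_eq_zero_iff A p n).mp h1
    · ext w
      rw [Module.End.natCast_apply, nsmul_eq_mul, (CharP.cast_eq_zero_iff A p n).mpr h, zero_mul]
      rfl
  have hc : Commute (LinearMap.mulLeft ℤ x) (LinearMap.mulRight ℤ x) :=
    LinearMap.commute_mulLeft_right x x
  have h1 := sub_pow_char_pow_of_commute (p := p) (n := a) hc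
  have h2 : ∀ (n : ℕ) (w : A), (fun w : A => ⁅x, w⁆)^[n] w =
      ((LinearMap.mulLeft ℤ x - LinearMap.mulRight ℤ x) ^ n) w := by
    intro n
    induction n with
    | zero => intro w; rfl
    | succ n ih =>
      intro w
      rw [Function.iterate_succ_apply, ih, pow_succ, Module.End.mul_apply]
      rfl
  rw [h2, h1, LinearMap.pow_mulLeft, LinearMap.pow_mulRight]
  rfl

/-- In an associative ring of characteristic `p`, `relL q s u = y^q x^q - x^q y^q`. -/
theorem relL_assoc (p a : ℕ) [Fact p.Prime] {A : Type*} [Ring A] [CharP A p] (s u : A) :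
    relL (p ^ a) s u = (s * u - u * s - u) ^ (p ^ a) * (s * u - u * s) ^ (p ^ a) -
      (s * u - u * s) ^ (p ^ a) * (s * u - u * s - u) ^ (p ^ a) := by
  unfold relL
  rw [ad_iter p a]
  have hx : ⁅s, u⁆ = s * u - u * s := rfl
  rw [hx]
  set x := s * u - u * s with hxdef
  set y := x - u with hydef
  have hneg : ∀ (n : ℕ) (w : A), (fun v : A => ⁅x, v⁆)^[n] (-w) = -((fun v : A => ⁅x, v⁆)^[n] w) := by
    intro n
    induction n with
    | zero => intro w; rfl
    | succ n ih =>
      intro w
      rw [Function.iterate_succ_apply, Function.iterate_succ_apply, lie_neg, ih]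
  have h3 : y ^ (p ^ a) * x - x * y ^ (p ^ a) = -⁅x, y ^ (p ^ a)⁆ := by
    have : ⁅x, y ^ (p ^ a)⁆ = x * y ^ (p ^ a) - y ^ (p ^ a) * x := rfl
    rw [this, neg_sub]
  rw [h3, hneg]
  have hq : p ^ a = (p ^ a - 1) + 1 := (Nat.sub_add_cancel (Nat.pos_of_ne_zero
    (pow_ne_zero a (Fact.out : p.Prime).ne_zero))).symm
  have h4 : (fun v : A => ⁅x, v⁆)^[p ^ a - 1] ⁅x, y ^ (p ^ a)⁆ =
      (fun v : A => ⁅x, v⁆)^[p ^ a] (y ^ (p ^ a)) := by
    conv_rhs => rw [hq]
    rw [Function.iterate_succ_apply]
    rw [← hq]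
  rw [h4, ad_iter p a, neg_sub]

theorem relL_iff {k V : Type*} [Field k] [AddCommGroup V] [Module k V] (p a : ℕ)
    [Fact p.Prime] [CharP k p] (s u : Module.End k V) :
    relL (p ^ a) s u = 0 ↔
      Commute ((s * u - u * s) ^ (p ^ a)) ((s * u - u * s - u) ^ (p ^ a)) := by
  rcases subsingleton_or_nontrivial V with hV | hV
  · have hs : Subsingleton (Module.End k V) := ⟨fun f g => LinearMap.ext fun v =>
      Subsingleton.elim _ _⟩
    exact ⟨fun _ => Subsingleton.elim _ _, fun _ => Subsingleton.elim _ _⟩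
  · have hch : CharP (Module.End k V) p :=
      charP_of_injective_algebraMap (algebraMap k (Module.End k V)).injective p
    rw [relL_assoc p a, sub_eq_zero]
    exact ⟨fun h => h.symm, fun h => h.symm⟩

end OneRelP
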