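import Pool.Agent.Lib.MP_85de51_alP.Inst
import Pool.Agent.Lib.MP_85de51_alP.Rel
set_option autoImplicit false

/-!
# JOB BrB: from modules to the membership problem, the negative side

Let `E = V × k` and for `A : Module.End k V`, `v : V` let `j A : Module.End k E`,
`j A (w, t) = (A w, 0)`, and `Z v : Module.End k E`, `Z v (w, t) = (t • v, 0)`. Then
`⁅j A, j A'⁆ = j ⁅A, A'⁆`, `⁅j A, Z v⁆ = Z (A v)`. Let `φ : FreeLieAlgebra k (Fin 3) →ₗ⁅k⁆ Module.End k E`
be the lift of `![j s, j u, Z e]` (`FreeLieAlgebra.lift`). `φ (relP k q) = relL q (j s) (j u) = j (relL q s u) = 0`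
(`map_relL`, `j` is a Lie algebra homomorphism), so `φ` kills the ideal. The set `T` of all
`F : Module.End k E` with `F (0, 1) = 0` is a Lie subalgebra. `φ (lmon k gs) = j s ∈ T`, `φ (lmon k gu) = j u ∈ T`,
and with `π = φ` composed with evaluation at `(0, 1)` and first projection,
`π (w) = (φ w (0, 1)).1`: `π ⁅lmon k gs, w⁆ = s (π w)` for ALL `w` (because
`⁅j s, F⁆ (0,1) = j s (F (0,1)) - F (j s (0,1)) = (s (F (0,1)).1, 0) - F (0,0)`), so `toL_spec` gives
`π (lexp k (toL k F)) = F(s, u) e`. Also `(φ w (0,1)).2 = 0` for all `w` (the second components of the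
generators vanish identically: the set of operators with range in `V × 0` is a subalgebra), so
`φ w ∈ T ↔ π w = 0`. So `φ` maps all elements of the instance into `T` and the target not into `T`. As in
`Pool/Agent/Lib/MP_85de51_al/Bwd.lean` (theorem `bwd`, please copy) this shows
that the class of the target is not in the Lie subalgebra generated by the classes of the elements.
The evaluation of the list of relators: see the hints of BrF: `(rels D q X U).map φ = rels D q (φ X) (φ U)`
for a ring homomorphism `φ`; and `π (lmon k (gs * powX (q * n))) = s ((s * u - u * s)^(q n) e)`.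
-/

namespace OneRelP

open MP_85de51_al

attribute [local instance 100] LieRing.ofAssociativeRing

section BrB

variable {k V : Type} [Field k] [AddCommGroup V] [Module k V]

/-- `j A (w, t) = (A w, 0)` -/
def BrB_j (A : Module.End k V) : Module.End k (V × k) where
  toFun w := (A w.1, 0)
  map_add' x y := by simp
  map_smul' c x := by simp

/-- `Z v (w, t) = (t • v, 0)` -/
def BrB_Z (v : V) : Module.End k (V × k) where
  toFun w := (w.2 • v, 0)
  map_add' x y := by simp [add_smul]
  map_smul' c x := by simp [mul_smul]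

theorem BrB_j_apply (A : Module.End k V) (w : V × k) : BrB_j A w = (A w.1, 0) := rfl

theorem BrB_Z_apply (v : V) (w : V × k) : BrB_Z v w = (w.2 • v, 0) := rfl

/-- `j` as a homomorphism of Lie algebras -/
def BrB_jh : Module.End k V →ₗ⁅k⁆ Module.End k (V × k) where
  toFun := BrB_j
  map_add' x y := by
    refine LinearMap.ext fun w => ?_
    simp [BrB_j_apply]
  map_smul' c x := by
    refine LinearMap.ext fun w => ?_
    simp [BrB_j_apply]
  map_lie' := by
    intro x y
    refine LinearMap.ext fun w => ?_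
    simp only [LieRing.of_associative_ring_bracket, LinearMap.sub_apply, Module.End.mul_apply,
      BrB_j_apply]
    simp

/-- the homomorphism from the free Lie algebra -/
noncomputable def BrB_phi (s u : Module.End k V) (e : V) :
    FreeLieAlgebra k (Fin 3) →ₗ⁅k⁆ Module.End k (V × k) :=
  FreeLieAlgebra.lift k ![BrB_j s, BrB_j u, BrB_Z e]

/-- operators with vanishing last component -/
def BrB_TT (k V : Type) [Field k] [AddCommGroup V] [Module k V] :
    LieSubalgebra k (Module.End k (V × k)) where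
  carrier := {F | ∀ w, (F w).2 = 0}
  add_mem' := by
    intro a b ha hb w
    rw [LinearMap.add_apply, Prod.snd_add, ha w, hb w, add_zero]
  zero_mem' := by intro w; rfl
  smul_mem' := by
    intro c x hx w
    rw [LinearMap.smul_apply, Prod.smul_snd, hx w, smul_zero]
  lie_mem' := by
    intro a b ha hb w
    rw [LieRing.of_associative_ring_bracket, LinearMap.sub_apply, Module.End.mul_apply,
      Module.End.mul_apply, Prod.snd_sub, ha _, hb _, sub_zero]

/-- operators vanishing at `(0, 1)` -/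
def BrB_T (k V : Type) [Field k] [AddCommGroup V] [Module k V] :
    LieSubalgebra k (Module.End k (V × k)) where
  carrier := {F | F (0, 1) = 0}
  add_mem' := by
    intro a b ha hb
    show (a + b) (0, 1) = 0
    rw [LinearMap.add_apply, show a (0, 1) = 0 from ha, show b (0, 1) = 0 from hb, add_zero]
  zero_mem' := rfl
  smul_mem' := by
    intro c x hx
    show (c • x) (0, 1) = 0
    rw [LinearMap.smul_apply, show x (0, 1) = 0 from hx, smul_zero]
  lie_mem' := by
    intro a b ha hb
    show (⁅a, b⁆ : Module.End k (V × k)) (0, 1) = 0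
    rw [LieRing.of_associative_ring_bracket, LinearMap.sub_apply, Module.End.mul_apply,
      Module.End.mul_apply, show a (0, 1) = 0 from ha, show b (0, 1) = 0 from hb, map_zero,
      map_zero, sub_zero]

theorem BrB_mem_T (F : Module.End k (V × k)) : F ∈ BrB_T k V ↔ F (0, 1) = 0 := Iff.rfl

theorem BrB_phi_gs (s u : Module.End k V) (e : V) :
    BrB_phi s u e (lmon k gs) = BrB_j s := by
  show BrB_phi s u e (FreeLieAlgebra.of k 0) = _
  rw [BrB_phi, FreeLieAlgebra.lift_of_apply]; rfl

theorem BrB_phi_gu (s u : Module.End k V) (e : V) :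
    BrB_phi s u e (lmon k gu) = BrB_j u := by
  show BrB_phi s u e (FreeLieAlgebra.of k 1) = _
  rw [BrB_phi, FreeLieAlgebra.lift_of_apply]; rfl

theorem BrB_phi_gz (s u : Module.End k V) (e : V) :
    BrB_phi s u e (lmon k gz) = BrB_Z e := by
  show BrB_phi s u e (FreeLieAlgebra.of k 2) = _
  rw [BrB_phi, FreeLieAlgebra.lift_of_apply]; rfl

theorem BrB_phi_TT (s u : Module.End k V) (e : V) (w : FreeLieAlgebra k (Fin 3)) :
    BrB_phi s u e w ∈ BrB_TT k V := by
  let f : Fin 3 → BrB_TT k V :=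
    ![⟨BrB_j s, fun w => rfl⟩, ⟨BrB_j u, fun w => rfl⟩, ⟨BrB_Z e, fun w => rfl⟩]
  have h : BrB_phi s u e = (BrB_TT k V).incl.comp (FreeLieAlgebra.lift k f) := by
    refine FreeLieAlgebra.hom_ext (fun i => ?_)
    rw [BrB_phi]
    fin_cases i
    · simp [f, FreeLieAlgebra.lift_of_apply]
    · simp [f, FreeLieAlgebra.lift_of_apply]
    · simp [f, FreeLieAlgebra.lift_of_apply]
  rw [h]
  exact (FreeLieAlgebra.lift k f w).2

/-- evaluation -/
noncomputable def BrB_pi (s u : Module.End k V) (e : V) : FreeLieAlgebra k (Fin 3) →ₗ[k] V where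
  toFun w := (BrB_phi s u e w (0, 1)).1
  map_add' x y := by rw [map_add, LinearMap.add_apply, Prod.fst_add]
  map_smul' c x := by rw [map_smul, LinearMap.smul_apply, Prod.smul_fst]; rfl

theorem BrB_pi_apply (s u : Module.End k V) (e : V) (w : FreeLieAlgebra k (Fin 3)) :
    BrB_pi s u e w = (BrB_phi s u e w (0, 1)).1 := rfl

theorem BrB_mem_iff (s u : Module.End k V) (e : V) (w : FreeLieAlgebra k (Fin 3)) :
    BrB_phi s u e w ∈ BrB_T k V ↔ BrB_pi s u e w = 0 := by
  rw [BrB_mem_T, BrB_pi_apply]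
  constructor
  · intro h
    rw [h]; rfl
  · intro h
    exact Prod.ext h (BrB_phi_TT s u e w (0, 1))

theorem BrB_pi_j (s u : Module.End k V) (e : V) (a : FreeLieAlgebra k (Fin 3))
    (A : Module.End k V) (ha : BrB_phi s u e a = BrB_j A) (w : FreeLieAlgebra k (Fin 3)) :
    BrB_pi s u e ⁅a, w⁆ = A (BrB_pi s u e w) := by
  rw [BrB_pi_apply, BrB_pi_apply, LieHom.map_lie, ha, LieRing.of_associative_ring_bracket,
    LinearMap.sub_apply, Module.End.mul_apply, Module.End.mul_apply, Prod.fst_sub]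
  have h0 : BrB_j A ((0 : V), (1 : k)) = 0 := by
    rw [BrB_j_apply]
    simp
  rw [h0, map_zero, BrB_j_apply]
  simp

theorem BrB_pi_gs (s u : Module.End k V) (e : V) (w : FreeLieAlgebra k (Fin 3)) :
    BrB_pi s u e ⁅lmon k gs, w⁆ = s (BrB_pi s u e w) :=
  BrB_pi_j s u e _ s (BrB_phi_gs s u e) w

theorem BrB_pi_gu (s u : Module.End k V) (e : V) (w : FreeLieAlgebra k (Fin 3)) :
    BrB_pi s u e ⁅lmon k gu, w⁆ = u (BrB_pi s u e w) :=
  BrB_pi_j s u e _ u (BrB_phi_gu s u e) w

theorem BrB_pi_gz (s u : Module.End k V) (e : V) : BrB_pi s u e (lmon k gz) = e := by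
  rw [BrB_pi_apply, BrB_phi_gz, BrB_Z_apply]
  simp

theorem BrB_phi_gv (s u : Module.End k V) (e : V) :
    BrB_phi s u e (lmon k gv) = BrB_j (s * u - u * s) := by
  show BrB_phi s u e ⁅lmon k gs, lmon k gu⁆ = _
  rw [LieHom.map_lie, BrB_phi_gs, BrB_phi_gu]
  exact ((BrB_jh (k := k) (V := V)).map_lie s u).symm

theorem BrB_pi_powX (s u : Module.End k V) (e : V) (n : ℕ) :
    BrB_pi s u e (lmon k (powX n)) = ((s * u - u * s) ^ n) e := by
  induction n with
  | zero =>
    show BrB_pi s u e (lmon k gz) = _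
    rw [BrB_pi_gz, pow_zero, Module.End.one_apply]
  | succ n ih =>
    have h : powX (n + 1) = gv * powX n := Function.iterate_succ_apply' _ _ _
    rw [h]
    show BrB_pi s u e ⁅lmon k gv, lmon k (powX n)⁆ = _
    rw [BrB_pi_j s u e _ _ (BrB_phi_gv s u e), ih, pow_succ', Module.End.mul_apply]

theorem BrB_phi_rel (q : ℕ) (s u : Module.End k V) (e : V) (h0 : relL q s u = 0) :
    BrB_phi s u e (relP k q) = 0 := by
  rw [relP, map_relL, BrB_phi_gs, BrB_phi_gu]
  have h := map_relL (BrB_jh (k := k) (V := V)) q s u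
  rw [h0, map_zero] at h
  exact h.symm

theorem BrB_rels_map {A B : Type*} [Ring A] [Ring B] (φ : A →+* B) (D : Clz) (q : ℕ) (X U : A) :
    (rels D q X U).map φ = rels D q (φ X) (φ U) := by
  simp only [rels, List.map_append, List.map_cons, List.map_nil, List.map_map, List.map_flatMap,
    Function.comp_def, map_mul, map_sub, map_pow]

theorem BrB_lexp_single (m : FreeMagma (Fin 3)) : lexp k [(1, m)] = lmon k m := by
  simp [lexp]

theorem BrB_lift_S (s u : Module.End k V) : FreeAlgebra.lift k ![s, u] (S0 k) = s := by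
  rw [S0, FreeAlgebra.lift_ι_apply]; rfl

theorem BrB_lift_U (s u : Module.End k V) : FreeAlgebra.lift k ![s, u] (U0 k) = u := by
  rw [U0, FreeAlgebra.lift_ι_apply]; rfl

theorem BrB_lift_X (s u : Module.End k V) :
    FreeAlgebra.lift k ![s, u] (X0 k) = s * u - u * s := by
  rw [X0, map_sub, map_mul, map_mul, BrB_lift_S, BrB_lift_U]

theorem BrB_pi_toL (s u : Module.End k V) (e : V) (F : FreeAlgebra k (Fin 2)) :
    BrB_pi s u e (lexp k (toL k F)) = FreeAlgebra.lift k ![s, u] F e := by
  rw [toL_spec k F V (BrB_pi s u e) s u (BrB_pi_gs s u e) (BrB_pi_gu s u e), BrB_pi_gz]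

theorem BrB_lift_mem (s u : Module.End k V) (D : Clz) (q : ℕ) (F : FreeAlgebra k (Fin 2))
    (hF : F ∈ rels D q (X0 k) (U0 k)) :
    FreeAlgebra.lift k ![s, u] F ∈ rels D q (s * u - u * s) u := by
  have h := BrB_rels_map ((FreeAlgebra.lift k ![s, u] : FreeAlgebra k (Fin 2) →ₐ[k] _) :
    FreeAlgebra k (Fin 2) →+* Module.End k V) D q (X0 k) (U0 k)
  have h2 : ((FreeAlgebra.lift k ![s, u] : FreeAlgebra k (Fin 2) →ₐ[k] _) :
    FreeAlgebra k (Fin 2) →+* Module.End k V) F ∈ (rels D q (X0 k) (U0 k)).map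
      ((FreeAlgebra.lift k ![s, u] : FreeAlgebra k (Fin 2) →ₐ[k] _) :
    FreeAlgebra k (Fin 2) →+* Module.End k V) := List.mem_map_of_mem hF
  rw [h] at h2
  simp only [RingHom.coe_coe] at h2
  rw [BrB_lift_X, BrB_lift_U] at h2
  exact h2

theorem BrB_lift_targ (s u : Module.End k V) (D : Clz) (q : ℕ) :
    FreeAlgebra.lift k ![s, u] (targ D q (X0 k) (U0 k)) = targ D q (s * u - u * s) u := by
  simp only [targ, map_mul, map_pow, BrB_lift_X, BrB_lift_U]

theorem BrB_gens (D : Clz) (q n : ℕ) (s u : Module.End k V) (e : V)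
    (h1 : ∀ F ∈ rels D q (s * u - u * s) u, F e = 0)
    (h2 : s (((s * u - u * s) ^ (q * n)) e) = 0) (w : List (k × FreeMagma (Fin 3)))
    (hw : w ∈ (inst k D q n).1) : BrB_phi s u e (lexp k w) ∈ BrB_T k V := by
  simp only [inst, List.mem_cons, List.mem_map] at hw
  rcases hw with rfl | rfl | rfl | ⟨F, hF, rfl⟩
  · rw [BrB_lexp_single, BrB_mem_iff]
    show BrB_pi s u e ⁅lmon k gs, lmon k (powX (q * n))⁆ = 0
    rw [BrB_pi_gs, BrB_pi_powX, h2]
  · rw [BrB_lexp_single, BrB_phi_gs, BrB_mem_T, BrB_j_apply]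
    simp
  · rw [BrB_lexp_single, BrB_phi_gu, BrB_mem_T, BrB_j_apply]
    simp
  · rw [BrB_mem_iff, BrB_pi_toL]
    exact h1 _ (BrB_lift_mem s u D q F hF)

theorem BrB_ideal_le (q : ℕ) (s u : Module.End k V) (e : V) (h0 : relL q s u = 0)
    {y : FreeLieAlgebra k (Fin 3)}
    (hy : y ∈ (LieSubmodule.lieSpan k (FreeLieAlgebra k (Fin 3)) {relP k q} :
      LieIdeal k (FreeLieAlgebra k (Fin 3)))) : BrB_phi s u e y = 0 := by
  have h : (LieSubmodule.lieSpan k (FreeLieAlgebra k (Fin 3)) {relP k q} :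
      LieIdeal k (FreeLieAlgebra k (Fin 3))) ≤ (BrB_phi s u e).ker := by
    rw [LieSubmodule.lieSpan_le]
    intro x hx
    rw [Set.mem_singleton_iff] at hx
    rw [hx]
    exact LieHom.mem_ker.2 (BrB_phi_rel q s u e h0)
  exact LieHom.mem_ker.1 (h hy)

end BrB

theorem not_member_of (k : Type) [Field k] (D : Clz) (q n : ℕ) (V : Type) [AddCommGroup V]
    [Module k V] (s u : Module.End k V) (e : V) (h0 : relL q s u = 0)
    (h1 : ∀ F ∈ rels D q (s * u - u * s) u, F e = 0)
    (h2 : s (((s * u - u * s) ^ (q * n)) e) = 0)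
    (h3 : targ D q (s * u - u * s) u e ≠ 0) :
    ¬ Member k (relP k q) (inst k D q n) := by
  intro h
  have key : ∀ x ∈ LieSubalgebra.lieSpan k (OneRel k (relP k q))
      {x : OneRel k (relP k q) | ∃ w ∈ (inst k D q n).1,
        x = LieSubmodule.Quotient.mk (lexp k w)},
      ∃ y : FreeLieAlgebra k (Fin 3), LieSubmodule.Quotient.mk y = x ∧
        BrB_phi s u e y ∈ BrB_T k V := by
    intro x hx
    induction hx using LieSubalgebra.lieSpan_induction with
    | mem x h =>
      obtain ⟨w, hw, rfl⟩ := h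
      exact ⟨_, rfl, BrB_gens D q n s u e h1 h2 w hw⟩
    | zero => exact ⟨0, rfl, by rw [map_zero]; exact (BrB_T k V).zero_mem⟩
    | add x y _ _ hx hy =>
      obtain ⟨a, rfl, ha⟩ := hx
      obtain ⟨b, rfl, hb⟩ := hy
      exact ⟨a + b, rfl, by rw [map_add]; exact (BrB_T k V).add_mem ha hb⟩
    | smul c x _ hx =>
      obtain ⟨a, rfl, ha⟩ := hx
      exact ⟨c • a, rfl, by rw [map_smul]; exact (BrB_T k V).smul_mem c ha⟩
    | lie x y _ _ hx hy =>
      obtain ⟨a, rfl, ha⟩ := hx
      obtain ⟨b, rfl, hb⟩ := hy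
      exact ⟨⁅a, b⁆, LieSubmodule.Quotient.mk_bracket _ _ _, by
        rw [LieHom.map_lie]; exact (BrB_T k V).lie_mem ha hb⟩
  obtain ⟨y, hy, hyT⟩ := key _ h
  have h4 : y - lexp k (inst k D q n).2 ∈
      (LieSubmodule.lieSpan k (FreeLieAlgebra k (Fin 3)) {relP k q} :
      LieIdeal k (FreeLieAlgebra k (Fin 3))) := by
    rw [← LieSubmodule.Quotient.mk_eq_zero']
    have : (LieSubmodule.Quotient.mk (y - lexp k (inst k D q n).2) : OneRel k (relP k q)) =
      LieSubmodule.Quotient.mk y - LieSubmodule.Quotient.mk (lexp k (inst k D q n).2) := rfl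
    rw [this, hy, sub_self]
  have h5 := BrB_ideal_le q s u e h0 h4
  rw [map_sub, sub_eq_zero] at h5
  rw [h5, BrB_mem_iff] at hyT
  have h6 : BrB_pi s u e (lexp k (toL k (targ D q (X0 k) (U0 k)))) = 0 := hyT
  rw [BrB_pi_toL, BrB_lift_targ] at h6
  exact h3 h6

end OneRelP
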