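import Pool.Agent.Lib.MP_85de51_alP.Inst
import Pool.Agent.Lib.MP_85de51_alP.Rel
set_option autoImplicit false

/-!
# JOB BrF: from modules to the membership problem

Let `L = OneRel k (relP k q)` and `K` the Lie subalgebra generated by the images of the elements of the
instance, `V = L ⧸ K.toLieSubmodule` (a module over the Lie algebra `K`; or the quotient of the
`k`-module `L` by `K.toSubmodule` with hand-made operators `a ↦ [a, ·]` for `a ∈ K`). Let `s`, `u` be
the images in `Module.End k V` of the classes `s̄`, `ū ∈ K` of `gs`, `gu` (the map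
`LieModule.toEnd k K V` is a homomorphism of Lie algebras). `relL q s̄ ū = 0` in `K`, since it is
the class of `relP` in `L` (`map_relL` for the quotient map `FreeLieAlgebra → L` and for the
inclusion `K → L`, which is injective), so `relL q s u = 0` in `Module.End k V` by `map_relL`.
Note that in an associative ring `⁅s, u⁆ = s * u - u * s`.
Let `π : FreeLieAlgebra k (Fin 3) →ₗ[k] V` be the composition of the two quotient maps,
`e = π (lmon k gz)`. By `toL_spec`: `π (lexp k (toL k F)) = F(s, u) e`; for `F` in the list of relators of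
the instance the left side is `0` (the element is one of the generators of `K`), and
`FreeAlgebra.lift k ![s, u] (rels D q (X0 k) (U0 k)) = rels D q (s * u - u * s) u` termwise (`map_mul`,
`map_sub`, `map_pow`; prove `(rels D q X U).map φ = rels D q (φ X) (φ U)` for a ring homomorphism
`φ`), similarly for `targ`. The bracketing `gs * powX (q * n)` has `π`-value
`s ((s * u - u * s)^(q n) e)` (by induction on the exponent, `gv = gs * gu`). So `h` gives
`π (lexp k (toL k (targ ..))) = 0`, i.e. the class of the target is in `K`.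
-/

namespace OneRelP

open MP_85de51_al

attribute [local instance 100] LieRing.ofAssociativeRing

theorem BrF_rels_map {A B : Type*} [Ring A] [Ring B] (φ : A →+* B) (D : Clz) (q : ℕ) (X U : A) :
    (rels D q X U).map φ = rels D q (φ X) (φ U) := by
  simp only [rels, List.map_append, List.map_map, List.map_flatMap, Function.comp_def, map_sub,
    map_mul, map_pow, List.map_cons, List.map_nil]

theorem BrF_targ_map {A B : Type*} [Ring A] [Ring B] (φ : A →+* B) (D : Clz) (q : ℕ) (X U : A) :
    φ (targ D q X U) = targ D q (φ X) (φ U) := by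
  simp only [targ, map_mul, map_pow]

theorem BrF_lift_U (k : Type) [Field k] {V : Type} [AddCommGroup V] [Module k V]
    (s u : Module.End k V) : FreeAlgebra.lift k ![s, u] (U0 k) = u := by
  rw [U0, FreeAlgebra.lift_ι_apply]; rfl

theorem BrF_lift_S (k : Type) [Field k] {V : Type} [AddCommGroup V] [Module k V]
    (s u : Module.End k V) : FreeAlgebra.lift k ![s, u] (S0 k) = s := by
  rw [S0, FreeAlgebra.lift_ι_apply]; rfl

theorem BrF_lift_X (k : Type) [Field k] {V : Type} [AddCommGroup V] [Module k V]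
    (s u : Module.End k V) : FreeAlgebra.lift k ![s, u] (X0 k) = s * u - u * s := by
  rw [X0, map_sub, map_mul, map_mul, BrF_lift_U, BrF_lift_S]

theorem BrF_lift_rels (k : Type) [Field k] {V : Type} [AddCommGroup V] [Module k V]
    (s u : Module.End k V) (D : Clz) (q : ℕ) :
    (rels D q (X0 k) (U0 k)).map (FreeAlgebra.lift k ![s, u]) =
      rels D q (s * u - u * s) u := by
  have h := BrF_rels_map (FreeAlgebra.lift k ![s, u]).toRingHom D q (X0 k) (U0 k)
  have h1 : (FreeAlgebra.lift k ![s, u]).toRingHom (X0 k) = s * u - u * s := BrF_lift_X k s u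
  have h2 : (FreeAlgebra.lift k ![s, u]).toRingHom (U0 k) = u := BrF_lift_U k s u
  rw [h1, h2] at h
  exact h

theorem BrF_lift_targ (k : Type) [Field k] {V : Type} [AddCommGroup V] [Module k V]
    (s u : Module.End k V) (D : Clz) (q : ℕ) :
    FreeAlgebra.lift k ![s, u] (targ D q (X0 k) (U0 k)) = targ D q (s * u - u * s) u := by
  have h := BrF_targ_map (FreeAlgebra.lift k ![s, u]).toRingHom D q (X0 k) (U0 k)
  have h1 : (FreeAlgebra.lift k ![s, u]).toRingHom (X0 k) = s * u - u * s := BrF_lift_X k s u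
  have h2 : (FreeAlgebra.lift k ![s, u]).toRingHom (U0 k) = u := BrF_lift_U k s u
  rw [h1, h2] at h
  exact h

theorem BrF_lmon_mul (k : Type) [Field k] (a b : FreeMagma (Fin 3)) :
    lmon k (a * b) = ⁅lmon k a, lmon k b⁆ := rfl

theorem BrF_lexp_one (k : Type) [Field k] (m : FreeMagma (Fin 3)) :
    lexp k [((1 : k), m)] = lmon k m := by
  simp [lexp]

theorem BrF_powX (k : Type) [Field k] {V : Type} [AddCommGroup V] [Module k V]
    (π : FreeLieAlgebra k (Fin 3) →ₗ[k] V) (s u : Module.End k V)
    (hs : ∀ w, π ⁅lmon k gs, w⁆ = s (π w)) (hu : ∀ w, π ⁅lmon k gu, w⁆ = u (π w)) (m : ℕ) :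
    π (lmon k (powX m)) = ((s * u - u * s) ^ m) (π (lmon k gz)) := by
  induction m with
  | zero => rw [pow_zero]; rfl
  | succ m ih =>
    have h1 : powX (m + 1) = gv * powX m := by
      unfold powX
      rw [Function.iterate_succ_apply']
    rw [h1, BrF_lmon_mul, gv, BrF_lmon_mul, lie_lie, map_sub, hs, hu, hu, hs, ih, pow_succ',
      Module.End.mul_apply, LinearMap.sub_apply, Module.End.mul_apply, Module.End.mul_apply]

theorem BrF_powX' (k : Type) [Field k] {V : Type} [AddCommGroup V] [Module k V]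
    (π : FreeLieAlgebra k (Fin 3) →ₗ[k] V) (s u : Module.End k V)
    (hs : ∀ w, π ⁅lmon k gs, w⁆ = s (π w)) (hu : ∀ w, π ⁅lmon k gu, w⁆ = u (π w)) (m : ℕ) :
    π (lmon k (gs * powX m)) = s (((s * u - u * s) ^ m) (π (lmon k gz))) := by
  rw [BrF_lmon_mul, hs, BrF_powX k π s u hs hu]

/-- the projection onto the one-relator Lie algebra as a homomorphism of Lie algebras -/
noncomputable def BrF_mk (k : Type) [Field k] (r : FreeLieAlgebra k (Fin 3)) :
    FreeLieAlgebra k (Fin 3) →ₗ⁅k⁆ OneRel k r where
  toFun y := LieSubmodule.Quotient.mk y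
  map_add' _ _ := rfl
  map_smul' _ _ := rfl
  map_lie' := LieSubmodule.Quotient.mk_bracket _ _ _

theorem BrF_mk_self (k : Type) [Field k] (r : FreeLieAlgebra k (Fin 3)) : BrF_mk k r r = 0 := by
  have h : (LieSubmodule.Quotient.mk r : OneRel k r) = 0 := by
    rw [LieSubmodule.Quotient.mk_eq_zero']
    exact LieSubmodule.subset_lieSpan (Set.mem_singleton _)
  exact h

theorem member_of (k : Type) [Field k] (D : Clz) (q n : ℕ)
    (h : ∀ (V : Type) [AddCommGroup V] [Module k V] (s u : Module.End k V) (e : V),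
      relL q s u = 0 → (∀ F ∈ rels D q (s * u - u * s) u, F e = 0) →
      s (((s * u - u * s) ^ (q * n)) e) = 0 → targ D q (s * u - u * s) u e = 0) :
    Member k (relP k q) (inst k D q n) := by
  unfold Member
  have hgen : ∀ w ∈ (inst k D q n).1, BrF_mk k (relP k q) (lexp k w) ∈
      LieSubalgebra.lieSpan k (OneRel k (relP k q))
        {x : OneRel k (relP k q) | ∃ w ∈ (inst k D q n).1,
          x = LieSubmodule.Quotient.mk (lexp k w)} := fun w hw =>
    LieSubalgebra.subset_lieSpan ⟨w, hw, rfl⟩
  have hgoal : (LieSubmodule.Quotient.mk (lexp k (inst k D q n).2) : OneRel k (relP k q)) =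
      BrF_mk k (relP k q) (lexp k (inst k D q n).2) := rfl
  rw [hgoal]
  generalize LieSubalgebra.lieSpan k (OneRel k (relP k q))
        {x : OneRel k (relP k q) | ∃ w ∈ (inst k D q n).1,
          x = LieSubmodule.Quotient.mk (lexp k w)} = K at hgen ⊢
  have hsK : BrF_mk k (relP k q) (lmon k gs) ∈ K := by
    have := hgen [(1, gs)] (by simp [inst])
    rwa [BrF_lexp_one] at this
  have huK : BrF_mk k (relP k q) (lmon k gu) ∈ K := by
    have := hgen [(1, gu)] (by simp [inst])
    rwa [BrF_lexp_one] at this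
  set sK : K := ⟨BrF_mk k (relP k q) (lmon k gs), hsK⟩ with hsKdef
  set uK : K := ⟨BrF_mk k (relP k q) (lmon k gu), huK⟩ with huKdef
  have hrelK : relL q sK uK = 0 := by
    have h1 : K.incl (relL q sK uK) = K.incl 0 := by
      rw [map_relL, map_zero]
      have h2 := map_relL (BrF_mk k (relP k q)) q (lmon k gs) (lmon k gu)
      have h3 : BrF_mk k (relP k q) (relL q (lmon k gs) (lmon k gu)) = 0 :=
        BrF_mk_self k (relP k q)
      rw [h3] at h2
      exact h2.symm
    exact Subtype.ext h1
  set T := LieModule.toEnd k K (OneRel k (relP k q) ⧸ K.toLieSubmodule) with hT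
  have hrel : relL q (T sK) (T uK) = 0 := by
    rw [← map_relL, hrelK, map_zero]
  set π : FreeLieAlgebra k (Fin 3) →ₗ[k] (OneRel k (relP k q) ⧸ K.toLieSubmodule) :=
    ((LieSubmodule.Quotient.mk' K.toLieSubmodule : OneRel k (relP k q) →ₗ⁅k, K⁆ _) :
      OneRel k (relP k q) →ₗ[k] (OneRel k (relP k q) ⧸ K.toLieSubmodule)).comp
      ((BrF_mk k (relP k q)) : FreeLieAlgebra k (Fin 3) →ₗ[k] OneRel k (relP k q)) with hπ
  have hπ0 : ∀ w, π w = 0 ↔ BrF_mk k (relP k q) w ∈ K := by
    intro w
    exact LieSubmodule.Quotient.mk_eq_zero'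
  have hπs : ∀ w, π ⁅lmon k gs, w⁆ = T sK (π w) := by
    intro w
    have h1 : π ⁅lmon k gs, w⁆ = LieSubmodule.Quotient.mk' K.toLieSubmodule
      (BrF_mk k (relP k q) ⁅lmon k gs, w⁆) := rfl
    rw [h1, LieHom.map_lie]
    rfl
  have hπu : ∀ w, π ⁅lmon k gu, w⁆ = T uK (π w) := by
    intro w
    have h1 : π ⁅lmon k gu, w⁆ = LieSubmodule.Quotient.mk' K.toLieSubmodule
      (BrF_mk k (relP k q) ⁅lmon k gu, w⁆) := rfl
    rw [h1, LieHom.map_lie]
    rfl
  have hmain := h (OneRel k (relP k q) ⧸ K.toLieSubmodule) (T sK) (T uK) (π (lmon k gz)) hrel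
    ?_ ?_
  · rw [← hπ0]
    have h1 : π (lexp k (inst k D q n).2) =
        FreeAlgebra.lift k ![T sK, T uK] (targ D q (X0 k) (U0 k)) (π (lmon k gz)) :=
      toL_spec k (targ D q (X0 k) (U0 k)) _ π (T sK) (T uK) hπs hπu
    rw [h1, BrF_lift_targ]
    exact hmain
  · intro F hF
    rw [← BrF_lift_rels, List.mem_map] at hF
    obtain ⟨G, hG, rfl⟩ := hF
    have h1 : π (lexp k (toL k G)) =
        FreeAlgebra.lift k ![T sK, T uK] G (π (lmon k gz)) :=
      toL_spec k G _ π (T sK) (T uK) hπs hπu
    rw [← h1, hπ0]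
    apply hgen
    simp only [inst, List.mem_cons, List.mem_map]
    exact Or.inr (Or.inr (Or.inr ⟨G, hG, rfl⟩))
  · rw [← BrF_powX' k π (T sK) (T uK) hπs hπu, hπ0]
    have := hgen [(1, gs * powX (q * n))] (by simp [inst])
    rwa [BrF_lexp_one] at this

end OneRelP
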