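import Mathlib
set_option autoImplicit false

/-!
# A coding of the bracketings for which the multiplication is computable
-/

namespace OneRelP

/-- a bijection from bracketings to natural numbers -/
def codM : FreeMagma (Fin 3) → ℕ
  | .of x => x.1
  | .mul a b => 3 + Nat.pair (codM a) (codM b)

theorem codM_inj : Function.Injective codM := by
  intro a
  induction a with
  | ih1 x =>
    intro b h
    cases b with
    | of y =>
      have h' : x.1 = y.1 := h
      rw [Fin.ext h']
    | mul c d =>
      have h' : x.1 = 3 + Nat.pair (codM c) (codM d) := h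
      have := x.2
      omega
  | ih2 a a' iha iha' =>
    intro b h
    cases b with
    | of y =>
      have h' : 3 + Nat.pair (codM a) (codM a') = y.1 := h
      have := y.2
      omega
    | mul c d =>
      have h' : 3 + Nat.pair (codM a) (codM a') = 3 + Nat.pair (codM c) (codM d) := h
      have h2 : Nat.pair (codM a) (codM a') = Nat.pair (codM c) (codM d) := by omega
      obtain ⟨h3, h4⟩ := Nat.pair_eq_pair.1 h2
      rw [iha h3, iha' h4]
      rfl

theorem codM_surj : Function.Surjective codM := by
  intro n
  induction n using Nat.strong_induction_on with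
  | _ n ih =>
    by_cases h : n < 3
    · exact ⟨.of ⟨n, h⟩, rfl⟩
    · have h1 : (n - 3).unpair.1 < n := lt_of_le_of_lt (Nat.unpair_left_le _) (by omega)
      have h2 : (n - 3).unpair.2 < n := lt_of_le_of_lt (Nat.unpair_right_le _) (by omega)
      obtain ⟨a, ha⟩ := ih _ h1
      obtain ⟨b, hb⟩ := ih _ h2
      refine ⟨.mul a b, ?_⟩
      show 3 + Nat.pair (codM a) (codM b) = n
      rw [ha, hb, Nat.pair_unpair]
      omega

theorem exists_coding : ∃ _ : Primcodable (FreeMagma (Fin 3)),
    Computable₂ fun v w : FreeMagma (Fin 3) => v * w := by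
  let e : FreeMagma (Fin 3) ≃ ℕ := Equiv.ofBijective codM ⟨codM_inj, codM_surj⟩
  letI : Primcodable (FreeMagma (Fin 3)) := Primcodable.ofEquiv ℕ e
  refine ⟨inferInstance, Primrec₂.to_comp ?_⟩
  have h1 : Primrec e := Primrec.of_equiv
  have h2 : Primrec e.symm := Primrec.of_equiv_symm
  have h3 : Primrec fun x : FreeMagma (Fin 3) × FreeMagma (Fin 3) =>
      e.symm (3 + Nat.pair (e x.1) (e x.2)) :=
    h2.comp (Primrec.nat_add.comp (Primrec.const 3)
      (Primrec₂.natPair.comp (h1.comp Primrec.fst) (h1.comp Primrec.snd)))
  refine h3.of_eq fun x => ?_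
  rw [Equiv.symm_apply_eq]
  rfl

end OneRelP
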