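import Mathlib
set_option autoImplicit false

/-!
# JOB Comp: operators with prescribed `q`-th power

Let `N : W^q → W^q` be the lowering operator `(N w) i = w (i+1)` for `i + 1 < q`,
`(N w) (q-1) = 0` (so `N ωⁱ = ωⁱ⁻¹` for `i ≥ 1`, `N ω⁰ = 0`, `N^q = 0`) and `C` the companion operator
`(C w) 0 = b (w (q-1))`, `(C w) i = w (i-1)` for `i ≥ 1` (so `C ωⁱ = ωⁱ⁺¹` for `i + 1 < q` and
`C ω^{q-1} = (b ω)⁰`). Let `a` also denote the diagonal operator `dg q a`; it commutes with `N`. Put
`P = 1 - a N`; it is invertible with inverse `P' = ∑_{i<q} (a N)^i` since `(a N)^q = a^q N^q = 0`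
(`mul_neg_geom_sum`, `Commute.mul_pow`). Define `X = P' C P`.
* `X^q = P' C^q P = P' (dg q b) P = dg q b` because `C^q = dg q b` (for `m ≤ q`:
`(C^m w) i = if i < m then b (w (i + q - m)) else w (i - m)`, by induction on `m`) and `dg q b`
commutes with `a` and `N`, so with `P`.
* `P ω⁰ = ω⁰`, `C ω⁰ = ω¹`, and `P' ω¹ = ω¹ + (a ω)⁰` because `P (ω¹ + (a ω)⁰) = ω¹ - (a ω)⁰ + (a ω)⁰ = ω¹`.
* for `1 ≤ i`, `i + 1 < q`: `P ωⁱ = ωⁱ - (a ω)ⁱ⁻¹`, `C` of this is `ωⁱ⁺¹ - (a ω)ⁱ = P ωⁱ⁺¹`, so
`X ωⁱ = ωⁱ⁺¹`.
(You may also choose another proof; only the statement matters. `Pi.single` extensionality: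
`LinearMap.pi_ext'`.)
-/

namespace OneRelP

variable {k W : Type} [Field k] [AddCommGroup W] [Module k W]

/-- the embedding of `W` as the `i`-th component of `W^q` -/
def sl (k : Type) {W : Type} [Field k] [AddCommGroup W] [Module k W] {q : ℕ} (i : Fin q) :
    W →ₗ[k] (Fin q → W) := LinearMap.single k (fun _ : Fin q => W) i

/-- the diagonal operator -/
def dg (q : ℕ) (b : Module.End k W) : Module.End k (Fin q → W) where
  toFun w := fun i => b (w i)
  map_add' x y := by funext i; simp
  map_smul' c x := by funext i; simp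

/-- the lowering operator -/
def CompN (q : ℕ) : Module.End k (Fin q → W) where
  toFun w := fun i => if h : i.val + 1 < q then w ⟨i.val + 1, h⟩ else 0
  map_add' x y := by funext i; by_cases h : i.val + 1 < q <;> simp [h]
  map_smul' c x := by funext i; by_cases h : i.val + 1 < q <;> simp [h]

/-- the companion operator -/
def CompC (q : ℕ) (b : Module.End k W) : Module.End k (Fin q → W) where
  toFun w := fun i => if i.val = 0 then b (w ⟨q - 1, by have := i.isLt; omega⟩)
    else w ⟨i.val - 1, by have := i.isLt; omega⟩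
  map_add' x y := by funext i; by_cases h : i.val = 0 <;> simp [h]
  map_smul' c x := by funext i; by_cases h : i.val = 0 <;> simp [h]

theorem Comp_dg_apply (q : ℕ) (b : Module.End k W) (w : Fin q → W) (i : Fin q) :
    dg q b w i = b (w i) := rfl

theorem Comp_N_apply (q : ℕ) (w : Fin q → W) (i : Fin q) :
    (CompN q : Module.End k (Fin q → W)) w i =
      if h : i.val + 1 < q then w ⟨i.val + 1, h⟩ else 0 := rfl

theorem Comp_C_apply (q : ℕ) (b : Module.End k W) (w : Fin q → W) (i : Fin q) :
    CompC q b w i = if i.val = 0 then b (w ⟨q - 1, by have := i.isLt; omega⟩)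
      else w ⟨i.val - 1, by have := i.isLt; omega⟩ := rfl

theorem Comp_sl_apply {q : ℕ} (i j : Fin q) (w : W) :
    sl k i w j = if j.val = i.val then w else 0 := by
  unfold sl
  rw [LinearMap.single_apply, Pi.single_apply]
  by_cases h : j = i
  · simp [h]
  · have : j.val ≠ i.val := fun e => h (Fin.ext e)
    simp [h, this]

theorem Comp_N_pow (q m : ℕ) (w : Fin q → W) (i : Fin q) :
    ((CompN q : Module.End k (Fin q → W)) ^ m) w i =
      if h : i.val + m < q then w ⟨i.val + m, h⟩ else 0 := by
  induction m generalizing i with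
  | zero => simp
  | succ m ih =>
    rw [pow_succ', Module.End.mul_apply, Comp_N_apply]
    by_cases h : i.val + 1 < q
    · rw [dif_pos h, ih]
      by_cases h2 : i.val + (m + 1) < q
      · rw [dif_pos (by simpa [Nat.add_assoc, Nat.add_comm 1 m] using h2), dif_pos h2]
        congr 1
        apply Fin.ext
        show i.val + 1 + m = i.val + (m + 1)
        omega
      · rw [dif_neg (by simp only [not_lt] at h2 ⊢; omega), dif_neg h2]
    · rw [dif_neg h, dif_neg (by omega)]

theorem Comp_N_nil (q : ℕ) : (CompN q : Module.End k (Fin q → W)) ^ q = 0 := by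
  refine LinearMap.ext fun w => ?_
  funext i
  rw [Comp_N_pow, dif_neg (by omega)]
  rfl

theorem Comp_dg_comm_N (q : ℕ) (a : Module.End k W) :
    Commute (dg q a) (CompN q : Module.End k (Fin q → W)) := by
  refine LinearMap.ext fun w => ?_
  funext i
  rw [Module.End.mul_apply, Module.End.mul_apply, Comp_dg_apply, Comp_N_apply, Comp_N_apply]
  by_cases h : i.val + 1 < q
  · rw [dif_pos h, dif_pos h, Comp_dg_apply]
  · rw [dif_neg h, dif_neg h, map_zero]

theorem Comp_dg_comm_dg (q : ℕ) (a b : Module.End k W) (hab : Commute a b) :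
    Commute (dg q a) (dg q b) := by
  refine LinearMap.ext fun w => ?_
  funext i
  rw [Module.End.mul_apply, Module.End.mul_apply]
  simp only [Comp_dg_apply]
  rw [← Module.End.mul_apply, ← Module.End.mul_apply, hab.eq]

theorem Comp_C_pow (q m : ℕ) (hm : m ≤ q) (b : Module.End k W) (w : Fin q → W) (i : Fin q) :
    ((CompC q b) ^ m) w i =
      if i.val < m then b (w ⟨(i.val + q - m) % q, Nat.mod_lt _ (by have := i.isLt; omega)⟩)
      else w ⟨i.val - m, by have := i.isLt; omega⟩ := by
  induction m generalizing i with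
  | zero => simp
  | succ m ih =>
    have hi := i.isLt
    rw [pow_succ', Module.End.mul_apply, Comp_C_apply]
    by_cases h : i.val = 0
    · rw [if_pos h, ih (by omega), if_neg (by show ¬ (q - 1 < m); omega), if_pos (by omega)]
      congr 2
      apply Fin.ext
      show q - 1 - m = (i.val + q - (m + 1)) % q
      rw [Nat.mod_eq_of_lt (by omega)]
      omega
    · rw [if_neg h, ih (by omega)]
      by_cases h2 : i.val < m + 1
      · rw [if_pos (by show i.val - 1 < m; omega), if_pos h2]
        congr 2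
        apply Fin.ext
        show (i.val - 1 + q - m) % q = (i.val + q - (m + 1)) % q
        congr 1
        omega
      · rw [if_neg (by show ¬ (i.val - 1 < m); omega), if_neg h2]
        congr 1
        apply Fin.ext
        show i.val - 1 - m = i.val - (m + 1)
        omega

theorem Comp_C_pow_q (q : ℕ) (b : Module.End k W) : (CompC q b) ^ q = dg q b := by
  refine LinearMap.ext fun w => ?_
  funext i
  have hi := i.isLt
  rw [Comp_C_pow q q le_rfl, if_pos i.isLt, Comp_dg_apply]
  congr 2
  apply Fin.ext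
  show (i.val + q - q) % q = i.val
  rw [Nat.add_sub_cancel, Nat.mod_eq_of_lt hi]

/-- For commuting operators `a`, `b` of `W` there is an operator `X` of `W^q` with
`X^q = diag(b)`, `X ω⁰ = (a ω)⁰ + ω¹` and `X ωⁱ = ωⁱ⁺¹` for `1 ≤ i < q - 1`. -/
theorem exists_opX (q : ℕ) (hq : 3 ≤ q) (a b : Module.End k W) (hab : Commute a b) :
    ∃ X : Module.End k (Fin q → W), X ^ q = dg q b ∧
      (∀ w, X (sl k ⟨0, by omega⟩ w) = sl k ⟨0, by omega⟩ (a w) + sl k ⟨1, by omega⟩ w) ∧
      (∀ (i : ℕ) (hi : i + 1 < q), 1 ≤ i → ∀ w, X (sl k ⟨i, by omega⟩ w) =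
        sl k ⟨i + 1, hi⟩ w) := by
  have hnil : IsNilpotent (dg q a * (CompN q : Module.End k (Fin q → W))) := by
    refine ⟨q, ?_⟩
    rw [(Comp_dg_comm_N q a).mul_pow, Comp_N_nil, mul_zero]
  obtain ⟨u, hu⟩ := hnil.isUnit_one_sub
  have key : ∀ x y : Fin q → W, CompC q b ((u : Module.End k (Fin q → W)) x) =
      (u : Module.End k (Fin q → W)) y →
      ((↑u⁻¹ : Module.End k (Fin q → W)) * CompC q b * (u : Module.End k (Fin q → W))) x = y := by
    intro x y h
    rw [Module.End.mul_apply, Module.End.mul_apply, h, ← Module.End.mul_apply, Units.inv_mul]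
    rfl
  have hP : ∀ (x : Fin q → W) (j : Fin q), (u : Module.End k (Fin q → W)) x j =
      x j - a (if h : j.val + 1 < q then x ⟨j.val + 1, h⟩ else 0) := by
    intro x j
    rw [hu]
    rfl
  refine ⟨↑u⁻¹ * CompC q b * ↑u, ?_, ?_, ?_⟩
  · rw [Units.conj_pow', Comp_C_pow_q]
    have hc : Commute (dg q b) (u : Module.End k (Fin q → W)) := by
      rw [hu]
      refine Commute.sub_right (Commute.one_right _) ?_
      exact Commute.mul_right (Comp_dg_comm_dg q b a hab.symm) (Comp_dg_comm_N q b)
    rw [mul_assoc, hc.eq, ← mul_assoc, Units.inv_mul, one_mul]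
  · intro w
    refine key _ _ ?_
    funext j
    rw [Comp_C_apply, hP, hP, hP]
    simp only [Pi.add_apply, Comp_sl_apply]
    have hj := j.isLt
    by_cases h0 : j.val = 0
    · rw [if_pos h0]
      have e1 : (q - 1 = 0) = False := by simp; omega
      have e2 : ¬ (q - 1 + 1 < q) := by omega
      have e3 : 1 < q := by omega
      simp [e1, e2, e3, h0]
    · rw [if_neg h0]
      by_cases h1 : j.val = 1
      · have e3 : (1 + 1 < q) := by omega
        simp [h1, e3]
      · have e1 : ¬ (j.val - 1 = 0) := by omega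
        by_cases h2 : j.val + 1 < q
        · simp [h0, h1, h2, e1]
        · simp [h0, h1, h2, e1]
  · intro i hi h1 w
    refine key _ _ ?_
    funext j
    rw [Comp_C_apply, hP, hP, hP]
    simp only [Comp_sl_apply]
    have hj := j.isLt
    by_cases h0 : j.val = 0
    · rw [if_pos h0]
      have e1 : ¬ (q - 1 = i) := by omega
      have e2 : ¬ (q - 1 + 1 < q) := by omega
      have e3 : ¬ (j.val = i + 1) := by omega
      have e4 : ¬ (j.val + 1 = i + 1) := by omega
      have e5 : i ≠ 0 := by omega
      simp [e1, e2, h0, e5]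
    · rw [if_neg h0]
      have e2 : (j.val - 1 = i) ↔ (j.val = i + 1) := by omega
      have e3 : (j.val - 1 + 1 = i) ↔ (j.val + 1 = i + 1) := by omega
      have e4 : j.val - 1 + 1 < q := by omega
      by_cases h2 : j.val + 1 < q
      · simp only [e2, e3, e4, h2, dif_pos]
      · have e5 : ¬ (j.val + 1 = i + 1) := by omega
        simp only [e2, e3, e4, h2, dif_pos, e5, if_false, dif_neg, not_false_eq_true]

end OneRelP
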