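import Pool.Agent.Lib.MP_85de51_al.Defs
set_option autoImplicit false

/-!
# Subalgebra membership in one-relator Lie algebras of positive characteristic: definitions
-/

namespace OneRelP

open MP_85de51_al

/-- The element `ad(x)^(q-1) ad(x - u)^q (x)` with `x = [s, u]`. -/
def relL {L : Type*} [LieRing L] (q : ℕ) (s u : L) : L :=
  (fun v => ⁅⁅s, u⁆, v⁆)^[q - 1] ((fun v => ⁅⁅s, u⁆ - u, v⁆)^[q] ⁅s, u⁆)

/-- The relator in the free Lie algebra with generators `s, u, z` (the generator `z` does not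
occur in it). -/
noncomputable def relP (k : Type) [Field k] (q : ℕ) : FreeLieAlgebra k (Fin 3) :=
  relL q (lmon k gs) (lmon k gu)

/-! ## Generalized Collatz functions -/

/-- data of a generalized Collatz function: `f (d m + r) = al r * m + be r`; the residue class of
`rh` modulo `d` is the halting class. -/
structure Clz where
  /-- modulus -/
  d : ℕ
  /-- multipliers -/
  al : ℕ → ℕ
  /-- offsets -/
  be : ℕ → ℕ
  /-- halting residue -/
  rh : ℕ
  hd : 0 < d
  hrh : rh < d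
  hal : ∀ r, 1 ≤ al r

/-- the function -/
def Clz.f (D : Clz) (n : ℕ) : ℕ := D.al (n % D.d) * (n / D.d) + D.be (n % D.d)

/-! ## The operators

`X` and `U` are elements of a ring, `Y = X - U`, `B = X^q`, `C = Y^q`. -/

section ops

variable {A : Type*} [Ring A]

/-- the relators of the module of a machine, as polynomials in `X` and `U` -/
def rels (D : Clz) (q : ℕ) (X U : A) : List A :=
  [X ^ q - (X - U) ^ q, U * X ^ q - X ^ q * U,
    ((X ^ q) ^ D.d - (X - U) ^ q) * U, (U * (X - U) ^ q - (X - U) ^ q * U) * U,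
    U * (X ^ q) ^ D.rh * U, U * (X - U), U * X ^ q * (X - U)] ++
  (List.range (D.d + 1)).map (fun i => U * (X ^ q) ^ i * X * U) ++
  ((List.range D.d).filter (fun r => r ≠ D.rh)).flatMap (fun r =>
    [((X - U) ^ q - (X ^ q) ^ D.al r) * (U * (X ^ q) ^ r * U)] ++
    (List.range (D.al r + 1)).map (fun i =>
      U * (X ^ q) ^ i * (U * (X ^ q) ^ r * U) - (X ^ q) ^ (i + D.be r)) ++
    (List.range (D.al r + 1)).map (fun i =>
      U * (X ^ q) ^ i * (X - U) * (U * (X ^ q) ^ r * U)))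

/-- the target polynomial -/
def targ (D : Clz) (q : ℕ) (X U : A) : A := X * (X ^ q) ^ D.rh * U

end ops

/-- The relations of the module of the machine, for operators `X`, `U` and a vector `e`. -/
structure Rels {k V : Type*} [Field k] [AddCommGroup V] [Module k V] (D : Clz) (q : ℕ)
    (X U : Module.End k V) (e : V) : Prop where
  r1 : (X ^ q) e = ((X - U) ^ q) e
  r2 : U ((X ^ q) e) = (X ^ q) (U e)
  r3 : ((X ^ q) ^ D.d) (U e) = ((X - U) ^ q) (U e)
  r4 : U (((X - U) ^ q) (U e)) = ((X - U) ^ q) (U (U e))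
  r5 : U (((X ^ q) ^ D.rh) (U e)) = 0
  r6 : U ((X - U) e) = 0
  r7 : U ((X ^ q) ((X - U) e)) = 0
  r8 : ∀ i ≤ D.d, U (((X ^ q) ^ i) (X (U e))) = 0
  r9 : ∀ r < D.d, r ≠ D.rh → ((X - U) ^ q) (U (((X ^ q) ^ r) (U e))) =
    ((X ^ q) ^ D.al r) (U (((X ^ q) ^ r) (U e)))
  r10 : ∀ r < D.d, r ≠ D.rh → ∀ i ≤ D.al r,
    U (((X ^ q) ^ i) (U (((X ^ q) ^ r) (U e)))) = ((X ^ q) ^ (i + D.be r)) e
  r11 : ∀ r < D.d, r ≠ D.rh → ∀ i ≤ D.al r,
    U (((X ^ q) ^ i) ((X - U) (U (((X ^ q) ^ r) (U e))))) = 0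

/-! ## The instances -/

/-- `[x, [x, ..., [x, z]]]`, `n` times `x = [s, u]` -/
def powX (n : ℕ) : FreeMagma (Fin 3) := (fun w => gv * w)^[n] gz

end OneRelP
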