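import Pool.Agent.Lib.MP_85de51_alP.Defs
set_option autoImplicit false

/-!
# JOB Ext: the HNN step

Let `q = p^a`. Take `V = ℕ → M`, `ι m = (m, 0, 0, ...)` (that is `Pi.single 0 m`), and
`x (w) i = X (w i)`, `u (w) i = U (w i) + w (i+1)`.
Let `l` be the shift `(l w) i = w (i+1)`; it commutes with the componentwise operators, and
`x - u = (X - U)(componentwise) - l`. In characteristic `p` (`Module.End k V` has `CharP p` if `V` is
nontrivial; if `M` is trivial everything is zero, but `hli` excludes this case as `a₀ ≠ 0`)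
`(x - u)^q = (X - U)^q - l^q` (`sub_pow_char_pow_of_commute`), which commutes with `x^q` by `hc`.

DEFINITION of `s`. Let `t : M →ₗ[k] M` be a linear map with `t (U^j a₀) = Z j`, where `Z 0 = 0`,
`Z (j+1) = U (Z j) + X (U^j a₀)`. It exists as the vectors `U^j a₀` are linearly independent
(`hli`): e.g. with `LinearMap.exists_extend` applied to a map defined on the span by
`hli.repr`/`Finsupp.linearCombination`, or `Basis.extend`/`Basis.constr`; there may be a direct lemma
(`LinearIndependent.exists_linearMap...`, `exists_linearMap_of_linearIndependent`).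
Define linear maps `σ i : V →ₗ[k] M` by `σ 0 w = t (w 0)` and
`σ (i+1) w = σ i (u w) - U (σ i w) - X (w i)`, and `(s w) i = σ i w`. Then
`(s (u w)) i - (u (s w)) i = σ i (u w) - U (σ i w) - σ (i+1) w = X (w i) = (x w) i`, i.e.
`s * u - u * s = x`.

`s (ι a₀) = 0`: claim `σ 0 (ι (U^j a₀)) = Z j` and `σ i (ι (U^j a₀)) = 0` for all `i ≥ 1` and all `j`.
`u (ι m) = ι (U m)`. `σ 1 (ι a_j) = σ 0 (ι a_{j+1}) - U (σ 0 (ι a_j)) - X a_j = Z (j+1) - U (Z j) - X a_j = 0`;
`σ (i+1) (ι a_j) = σ i (ι a_{j+1}) - U (σ i (ι a_j)) - X ((ι a_j) i) = 0` for `i ≥ 1` as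
`(ι a_j) i = 0`. For `j = 0`: `σ 0 (ι a₀) = Z 0 = 0` as well, so `s (ι a₀) = 0`.
-/

namespace OneRelP

section ExtAux

variable {k M : Type} [Field k] [AddCommGroup M] [Module k M]

/-- componentwise operator -/
def ext_cw (T : Module.End k M) : Module.End k (ℕ → M) :=
  LinearMap.pi (fun i => T ∘ₗ LinearMap.proj i)

/-- shift -/
def ext_sh (k M : Type) [Field k] [AddCommGroup M] [Module k M] : Module.End k (ℕ → M) :=
  LinearMap.pi (fun i => LinearMap.proj (i + 1))

@[simp] theorem ext_cw_apply (T : Module.End k M) (w : ℕ → M) (i : ℕ) :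
    ext_cw T w i = T (w i) := rfl

@[simp] theorem ext_sh_apply (w : ℕ → M) (i : ℕ) : ext_sh k M w i = w (i + 1) := rfl

theorem ext_ext {S T : Module.End k (ℕ → M)} (h : ∀ w i, S w i = T w i) : S = T :=
  LinearMap.ext (fun w => funext (fun i => h w i))

theorem ext_cw_pow (T : Module.End k M) (n : ℕ) : ext_cw T ^ n = ext_cw (T ^ n) := by
  induction n with
  | zero => apply ext_ext; intro w i; simp
  | succ n ih => rw [pow_succ, ih, pow_succ]; apply ext_ext; intro w i; simp [Module.End.mul_apply]

theorem ext_cw_commute (S T : Module.End k M) (h : Commute S T) : Commute (ext_cw S) (ext_cw T) := by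
  apply ext_ext
  intro w i
  have h2 : S * T = T * S := h
  have := LinearMap.congr_fun h2 (w i)
  simpa [Module.End.mul_apply] using this

theorem ext_cw_sh (S : Module.End k M) : Commute (ext_cw S) (ext_sh k M) := by
  apply ext_ext
  intro w i
  simp [Module.End.mul_apply]

/-- the operator `u` -/
def ext_u (U : Module.End k M) : Module.End k (ℕ → M) := ext_cw U + ext_sh k M

@[simp] theorem ext_u_apply (U : Module.End k M) (w : ℕ → M) (i : ℕ) :
    ext_u U w i = U (w i) + w (i + 1) := rfl

/-- the components of `s` -/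
def ext_sig (X U t : Module.End k M) : ℕ → ((ℕ → M) →ₗ[k] M)
  | 0 => t ∘ₗ LinearMap.proj 0
  | i + 1 => ext_sig X U t i ∘ₗ ext_u U - U ∘ₗ ext_sig X U t i - X ∘ₗ LinearMap.proj i

theorem ext_sig_zero (X U t : Module.End k M) (w : ℕ → M) : ext_sig X U t 0 w = t (w 0) := rfl

theorem ext_sig_succ (X U t : Module.End k M) (i : ℕ) (w : ℕ → M) :
    ext_sig X U t (i + 1) w = ext_sig X U t i (ext_u U w) - U (ext_sig X U t i w) - X (w i) := rfl

/-- the operator `s` -/
def ext_s (X U t : Module.End k M) : Module.End k (ℕ → M) := LinearMap.pi (ext_sig X U t)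

@[simp] theorem ext_s_apply (X U t : Module.End k M) (w : ℕ → M) (i : ℕ) :
    ext_s X U t w i = ext_sig X U t i w := rfl

theorem ext_comm (X U t : Module.End k M) :
    ext_s X U t * ext_u U - ext_u U * ext_s X U t = ext_cw X := by
  apply ext_ext
  intro w i
  simp only [LinearMap.sub_apply, Module.End.mul_apply, Pi.sub_apply, ext_s_apply, ext_u_apply,
    ext_sig_succ, ext_cw_apply]
  abel

/-- the vectors `Z j` -/
def ext_Z (X U : Module.End k M) (a₀ : M) : ℕ → M
  | 0 => 0
  | j + 1 => U (ext_Z X U a₀ j) + X ((U ^ j) a₀)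

theorem ext_exists_t (X U : Module.End k M) (a₀ : M)
    (hli : LinearIndependent k (fun j : ℕ => (U ^ j) a₀)) :
    ∃ t : Module.End k M, ∀ j, t ((U ^ j) a₀) = ext_Z X U a₀ j := by
  obtain ⟨t, ht⟩ := LinearMap.exists_extend
    ((Finsupp.linearCombination k (ext_Z X U a₀)) ∘ₗ (hli.repr : _ →ₗ[k] _))
  refine ⟨t, fun j => ?_⟩
  have hmem : (U ^ j) a₀ ∈ Submodule.span k (Set.range (fun j : ℕ => (U ^ j) a₀)) :=
    Submodule.subset_span ⟨j, rfl⟩
  have h1 := LinearMap.congr_fun ht ⟨(U ^ j) a₀, hmem⟩
  have h2 : hli.repr ⟨(U ^ j) a₀, hmem⟩ = Finsupp.single j 1 := by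
    apply hli.repr_eq_single j
    rfl
  simpa [h2] using h1

end ExtAux

theorem extend {k M : Type} [Field k] [AddCommGroup M] [Module k M] (p a : ℕ) [Fact p.Prime]
    [CharP k p] (X U : Module.End k M) (hc : Commute (X ^ (p ^ a)) ((X - U) ^ (p ^ a)))
    (a₀ : M) (hli : LinearIndependent k (fun j : ℕ => (U ^ j) a₀)) :
    ∃ (V : Type) (_ : AddCommGroup V) (_ : Module k V) (s u : Module.End k V) (ι : M →ₗ[k] V),
      Function.Injective ι ∧ (∀ m, ι (U m) = u (ι m)) ∧
      (∀ m, ι (X m) = (s * u - u * s) (ι m)) ∧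
      Commute ((s * u - u * s) ^ (p ^ a)) ((s * u - u * s - u) ^ (p ^ a)) ∧ s (ι a₀) = 0 := by
  obtain ⟨t, ht⟩ := ext_exists_t X U a₀ hli
  have hne : a₀ ≠ 0 := by
    have := hli.ne_zero 0
    simpa using this
  have hM : Nontrivial M := ⟨⟨a₀, 0, hne⟩⟩
  have hchar : CharP (Module.End k (ℕ → M)) p :=
    charP_of_injective_algebraMap (algebraMap k (Module.End k (ℕ → M))).injective p
  refine ⟨ℕ → M, inferInstance, inferInstance, ext_s X U t, ext_u U,
    LinearMap.single k (fun _ : ℕ => M) 0, ?_, ?_, ?_, ?_, ?_⟩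
  · intro m m' h
    have := congrFun h 0
    simpa using this
  · intro m
    funext i
    rcases i with _ | i
    · simp
    · simp
  · intro m
    rw [ext_comm]
    funext i
    rcases i with _ | i
    · simp
    · simp
  · rw [ext_comm]
    have h1 : ext_cw X - ext_u U = ext_cw (X - U) - ext_sh k M := by
      apply ext_ext
      intro w i
      simp only [LinearMap.sub_apply, Pi.sub_apply, ext_cw_apply, ext_u_apply, ext_sh_apply]
      abel
    rw [h1, sub_pow_char_pow_of_commute _ _ (ext_cw_sh (X - U)), ext_cw_pow, ext_cw_pow]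
    apply Commute.sub_right
    · exact ext_cw_commute _ _ hc
    · exact (ext_cw_sh _).pow_right _
  · funext i
    have key : ∀ i j, ext_sig X U t i (LinearMap.single k (fun _ : ℕ => M) 0 ((U ^ j) a₀)) =
        if i = 0 then ext_Z X U a₀ j else 0 := by
      have hu : ∀ j, ext_u U (LinearMap.single k (fun _ : ℕ => M) 0 ((U ^ j) a₀)) =
          LinearMap.single k (fun _ : ℕ => M) 0 ((U ^ (j + 1)) a₀) := by
        intro j
        funext i
        rcases i with _ | i
        · simp [pow_succ', Module.End.mul_apply]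
        · simp
      intro i
      induction i with
      | zero =>
        intro j
        rw [ext_sig_zero]
        simp [ht]
      | succ i ih =>
        intro j
        rw [ext_sig_succ, hu, ih, ih]
        rcases i with _ | i
        · simp [ext_Z]
        · simp
    have h0 := key i 0
    simp only [pow_zero, Module.End.one_apply] at h0
    rw [ext_s_apply, h0]
    simp [ext_Z]

end OneRelP
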