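import Pool.Agent.Lib.MP_85de51_alP.Mach
set_option autoImplicit false

/-!
# JOB FMClz: a flow chart as a generalized Collatz function

Let `m` be the number of states, `idx : M.S ≃ Fin m` an enumeration, `L = 2 * ∏_s l s` (so `L ≥ 2` and
`l s ∣ L` for all `s`), `d = m * L`. The pair `(s, n)` is coded by `N = m * n + idx s`. Write
`n = L k + ρ`, `ρ < L`. Then `N = d k + (m ρ + idx s)` with `m ρ + idx s < d`, so `N % d = m ρ + idx s`,
`N / d = k`, and the residue `R = N % d` determines `idx s = R % m`, `ρ = R / m`. As `l s ∣ L`: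
`l s ∣ n ↔ l s ∣ ρ`. Define `al R`, `be R` for `R < d` (anything, e.g. `al = 1`, `be = 0` for other
values of `R`): if `l s ∣ ρ` and `(s', c) = yes s`: `al R = m * (L / l s) * c`, `be R = m * (ρ / l s * c) + idx s'`;
else with `(s', c) = no s`: `al R = m * L * c`, `be R = m * (ρ * c) + idx s'`. Check:
`n / l s * c = (L / l s) k c + (ρ / l s) c`. `rh = m + idx F < d` because `L ≥ 2`; if `N % d = rh` then
`idx s = N % m = idx F`.
-/

namespace OneRelP

private theorem FMClz_code (m L n i : ℕ) (hi : i < m) (hL : 0 < L) :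
    (m * n + i) % (m * L) = m * (n % L) + i ∧ (m * n + i) / (m * L) = n / L := by
  have hm : 0 < m := by omega
  have h1 : L * (n / L) + n % L = n := Nat.div_add_mod n L
  have h2 : n % L < L := Nat.mod_lt n hL
  have h3 : m * n + i = (m * (n % L) + i) + (m * L) * (n / L) := by
    calc m * n + i = m * (L * (n / L) + n % L) + i := by rw [h1]
      _ = _ := by ring
  have h4 : m * (n % L) + i < m * L := by
    have : m * (n % L + 1) ≤ m * L := Nat.mul_le_mul_left m h2
    rw [Nat.mul_add, Nat.mul_one] at this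
    omega
  have h5 : 0 < m * L := Nat.mul_pos hm hL
  rw [h3, Nat.add_mul_mod_self_left, Nat.mod_eq_of_lt h4, Nat.add_mul_div_left _ _ h5,
    Nat.div_eq_of_lt h4, Nat.zero_add]
  exact ⟨rfl, rfl⟩

private theorem FMClz_idx (m p i : ℕ) (hi : i < m) :
    (m * p + i) % m = i ∧ (m * p + i) / m = p := by
  have hm : 0 < m := by omega
  rw [Nat.mul_add_mod, Nat.mod_eq_of_lt hi, Nat.mul_add_div hm, Nat.div_eq_of_lt hi]
  exact ⟨rfl, by omega⟩

theorem clz_of_fm (M : FM) (hfin : Finite M.S) (hl : ∀ s, 1 ≤ M.l s)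
    (hy : ∀ s, 1 ≤ (M.yes s).2) (hn : ∀ s, 1 ≤ (M.no s).2) (F : M.S) :
    ∃ (D : Clz) (m : ℕ) (idx : M.S → ℕ), (∀ s, idx s < m) ∧ Function.Injective idx ∧
      (∀ c : M.S × ℕ, D.f (m * c.2 + idx c.1) =
        m * (M.step c).2 + idx (M.step c).1) ∧ m + idx F = D.rh ∧
      (∀ c : M.S × ℕ, (m * c.2 + idx c.1) % D.d = D.rh → c.1 = F) := by
  classical
  have := Fintype.ofFinite M.S
  let m := Nat.card M.S
  let e : M.S ≃ Fin m := Finite.equivFin M.S
  let idx : M.S → ℕ := fun s => (e s : ℕ)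
  have hidx : ∀ s, idx s < m := fun s => (e s).2
  have hinj : Function.Injective idx := fun a b h => e.injective (Fin.ext h)
  have hm : 0 < m := lt_of_le_of_lt (Nat.zero_le _) (hidx F)
  let L := 2 * ∏ s, M.l s
  have hP : 0 < ∏ s, M.l s := Finset.prod_pos fun s _ => hl s
  have hL2 : 2 ≤ L := by show 2 ≤ 2 * ∏ s, M.l s; omega
  have hL : 0 < L := by omega
  have hdvd : ∀ s, M.l s ∣ L := fun s =>
    Dvd.dvd.mul_left (Finset.dvd_prod_of_mem _ (Finset.mem_univ s)) 2
  let st : ℕ → M.S := fun R => e.symm ⟨R % m, Nat.mod_lt R hm⟩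
  have hst : ∀ s p, st (m * p + idx s) = s := by
    intro s p
    have h1 := (FMClz_idx m p (idx s) (hidx s)).1
    show e.symm ⟨(m * p + idx s) % m, Nat.mod_lt _ hm⟩ = s
    rw [Equiv.symm_apply_eq]
    apply Fin.ext
    exact h1
  let al : ℕ → ℕ := fun R =>
    if M.l (st R) ∣ R / m then m * (L / M.l (st R)) * (M.yes (st R)).2
    else m * L * (M.no (st R)).2
  let be : ℕ → ℕ := fun R =>
    if M.l (st R) ∣ R / m then m * (R / m / M.l (st R) * (M.yes (st R)).2) + idx (M.yes (st R)).1
    else m * (R / m * (M.no (st R)).2) + idx (M.no (st R)).1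
  have hal : ∀ R, 1 ≤ al R := by
    intro R
    show 1 ≤ if M.l (st R) ∣ R / m then m * (L / M.l (st R)) * (M.yes (st R)).2
      else m * L * (M.no (st R)).2
    split_ifs
    · have h1 : 0 < L / M.l (st R) := Nat.div_pos (Nat.le_of_dvd hL (hdvd _)) (hl _)
      exact Nat.mul_pos (Nat.mul_pos hm h1) (hy _)
    · exact Nat.mul_pos (Nat.mul_pos hm hL) (hn _)
  have hrh : m + idx F < m * L := by
    have h1 := hidx F
    have h2 : m * 2 ≤ m * L := Nat.mul_le_mul_left m hL2
    omega
  refine ⟨⟨m * L, al, be, m + idx F, Nat.mul_pos hm hL, hrh, hal⟩, m, idx, hidx, hinj, ?_, rfl, ?_⟩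
  · rintro ⟨s, n⟩
    obtain ⟨h1, h2⟩ := FMClz_code m L n (idx s) (hidx s) hL
    obtain ⟨h3, h4⟩ := FMClz_idx m (n % L) (idx s) (hidx s)
    have h5 := hst s (n % L)
    have hn : L * (n / L) + n % L = n := Nat.div_add_mod n L
    have hiff : M.l s ∣ n ↔ M.l s ∣ n % L := by
      rw [Nat.dvd_mod_iff (hdvd s)]
    show al ((m * n + idx s) % (m * L)) * ((m * n + idx s) / (m * L))
      + be ((m * n + idx s) % (m * L)) = m * (M.step (s, n)).2 + idx (M.step (s, n)).1
    rw [h1, h2]
    show (if M.l (st (m * (n % L) + idx s)) ∣ (m * (n % L) + idx s) / m then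
        m * (L / M.l (st (m * (n % L) + idx s))) * (M.yes (st (m * (n % L) + idx s))).2
      else m * L * (M.no (st (m * (n % L) + idx s))).2) * (n / L)
      + (if M.l (st (m * (n % L) + idx s)) ∣ (m * (n % L) + idx s) / m then
        m * ((m * (n % L) + idx s) / m / M.l (st (m * (n % L) + idx s))
          * (M.yes (st (m * (n % L) + idx s))).2) + idx (M.yes (st (m * (n % L) + idx s))).1
      else m * ((m * (n % L) + idx s) / m * (M.no (st (m * (n % L) + idx s))).2)
        + idx (M.no (st (m * (n % L) + idx s))).1) = _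
    rw [h5, h4]
    by_cases hd : M.l s ∣ n % L
    · have hd' : M.l s ∣ n := hiff.2 hd
      simp only [hd, if_true, FM.step, hd']
      have h6 : n / M.l s = L / M.l s * (n / L) + n % L / M.l s := by
        conv_lhs => rw [← hn]
        obtain ⟨t, ht⟩ := hdvd s
        have hls : 0 < M.l s := hl s
        rw [ht, Nat.mul_div_cancel_left _ hls]
        rw [ht] at hn
        have : M.l s * t * (n / (M.l s * t)) = M.l s * (t * (n / (M.l s * t))) := by ring
        rw [this, Nat.mul_add_div hls]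
      rw [h6]
      ring
    · have hd' : ¬ M.l s ∣ n := fun h => hd (hiff.1 h)
      simp only [hd, if_false, FM.step, hd']
      conv_rhs => rw [← hn]
      ring
  · rintro ⟨s, n⟩ h
    obtain ⟨h1, h2⟩ := FMClz_code m L n (idx s) (hidx s) hL
    have h' : (m * n + idx s) % (m * L) = m + idx F := h
    rw [h1] at h'
    have h3 := (FMClz_idx m (n % L) (idx s) (hidx s)).1
    have h4 := (FMClz_idx m 1 (idx F) (hidx F)).1
    rw [Nat.mul_one] at h4
    have h5 : idx s = idx F := by rw [← h3, ← h4, h']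
    exact hinj h5

end OneRelP
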