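import Pool.Agent.Lib.MP_85de51_alP.Defs
set_option autoImplicit false

/-!
# JOB Fwd: if the machine halts then the target vanishes

Write `B = X^q`, `Y = X - U`, `C = Y^q`, `z = U B - B U`, `w = U C - C U`. Facts:
`X B = B X`, `Y C = C Y`, `B C = C B` (`hc`). `U = X - Y`, so `z = B Y - Y B` and `w = X C - C X`;
hence `z C = C z` (`B`, `Y` commute with `C`) and `w B = B w` (`X`, `C` commute with `B`).

LEMMA T (transport). If `C v = B^j v` with `j ≥ 1` and `U (B^i v) = B^i v'` for all `i ≤ j`, then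
`U (B^n v) = B^n v'` for all `n`. Proof: for `i < j`: `z (B^i v) = U (B^(i+1) v) - B (U (B^i v)) = 0`.
For `n = j m + i` with `i < j`: `B^n v = B^i (B^j)^m v = B^i C^m v = C^m B^i v` (use
`(B^j)^m v = C^m v`, by induction on `m`, as `B^j` and `C` commute) so `z (B^n v) = C^m z (B^i v) = 0`.
So `z (B^n v) = 0` for all `n`, that is `U (B^(n+1) v) = B (U (B^n v))`, and the claim follows by
induction on `n`.

STATE VECTORS. `E n = B^n e`, `G n = B^n (U e)`, `H r n = B^n (h r)`, `h r = U (B^r (U e))` for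
`r < d`, `r ≠ rh`.
(1) `U (E n) = G n`: LEMMA T with `j = 1`, `v = e`, `v' = U e` (`r1`, `r2`).
(2) `U (Y (E n)) = 0`: first `B (Y e) = Y (B e)` (from `r2`, since `z e = 0` and `z = B Y - Y B`);
more generally `z (B^n e) = 0` for all `n` (proof of LEMMA T), so `B^n (Y e) = Y (B^n e)` by
induction. `C (Y e) = Y (C e) = Y (B e) = B (Y e)` and LEMMA T with `j = 1`, `v = Y e`, `v' = 0`
(`r6`, `r7`) gives `U (B^n (Y e)) = 0`, which is `U (Y (E n)) = 0`.
So `U (X (E n)) = U (U (E n))`, since `X = U + Y`.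
(3) `U (X (G n)) = 0`: `X (B^n (U e)) = B^n (X (U e))`. Also `C (X (U e)) = X (C (U e))` because
`w (U e) = 0` (`r4`) and `w = X C - C X`; so `C (X (U e)) = X (B^d (U e)) = B^d (X (U e))` by `r3`.
LEMMA T with `j = d` (`D.hd`), `v = X (U e)`, `v' = 0` (`r8`).
(4) `U (H r n) = E (n + be r)`: LEMMA T with `j = al r` (`D.hal`), `v = h r`, `v' = B^(be r) e`
(`r9`, `r10`).
(5) `U (Y (H r n)) = 0`, hence `U (X (H r n)) = U (U (H r n))`: as in (2), `z (B^n (h r)) = 0` so
`B^n (Y (h r)) = Y (B^n (h r))`, `C (Y (h r)) = Y (C (h r)) = Y (B^(al r) (h r)) = B^(al r) (Y (h r))`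
and LEMMA T with `j = al r`, `v = Y (h r)`, `v' = 0` (`r11`).
(6) For `n = d m + r`, `r < d`: `U (G n) = C^m (U (B^r (U e)))`: `G n = B^r (B^d)^m (U e) =
B^r C^m (U e) = C^m (B^r (U e))`; `w` commutes with `B` and kills `U e`, so it kills every
`C^i B^r (U e) = B^(d i + r) (U e)`; hence `U C^m (B^r (U e)) = C^m (U (B^r (U e)))` by induction
on `m`.
So `U (G n) = H r (al r * m)` if `r ≠ rh` (as `C^m (h r) = B^(al r * m) (h r)` by `r9`), and
`U (G n) = 0` if `r = rh` (`r5`).

DYNAMICS. If `n % d ≠ rh` then `U (U (U (E n))) = E (f n)`, `f n = al r * m + be r`,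
`m = n / d`, `r = n % d`. If `n % d = rh` then `U (U (E n)) = 0`.
Let `a i = U^i (E n₀)`. By `ht`, `hlt`: `a (3 j) = E (f^j n₀)` for `j ≤ t`, `a (3 t) = E rh`,
`a (3 t + 1) = G rh`, `a (3 t + 2) = 0`. Let `N = 3 t + 2`. For each `i < N - 1` either
`U (X (a i)) = U (U (a i))` (if `a i` is an `E` or an `H`) or `U (X (a i)) = 0` (if it is a `G`);
in both cases `U^(N-1-i) (X (a i)) = 0` because `U^(N-2-i) (U (U (a i))) = U^N (a 0) = 0`.
(A convenient formulation: prove by induction on the length of the remaining run the statement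
`P v := U^K v = 0 ∧ ...`, or prove the sum formula below.)
From `hX`: `s U = U s + X`, so `s (U^N v) = U^N (s v) + ∑_{i<N} U^(N-1-i) (X (U^i v))`. With
`v = E n₀`, `s v = 0` (`hs`), `U^N v = 0`, all terms of the sum except the last one vanish, and the
last one (`i = N - 1 = 3 t + 1`) is `X (a (3 t + 1)) = X (G rh)`. So `X (G rh) = 0`. QED.
Suggested recursion: define `Z 0 = 0`, `Z (i+1) = U (Z i) + X (a i)`; then `s (a i) = Z i` for all
`i`; and show `Z` has `U`-annihilation properties, or simply prove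
`s (U^N v) = U^N (s v) + ∑ i in range N, ...` by induction on `N`.
-/

namespace OneRelP

variable {k V : Type*} [Field k] [AddCommGroup V] [Module k V]

theorem Fwd_comm {A B : Module.End k V} (h : Commute A B) (x : V) : A (B x) = B (A x) := by
  rw [← Module.End.mul_apply, h.eq, Module.End.mul_apply]

theorem Fwd_T {B C U : Module.End k V} (hBC : Commute B C)
    (hz : (U * B - B * U) * C = C * (U * B - B * U)) {v v' : V} {j : ℕ}
    (hCv : C v = (B ^ j) v) (hU : ∀ i ≤ j, U ((B ^ i) v) = (B ^ i) v') (hj : 1 ≤ j) (n : ℕ) :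
    (U * B - B * U) ((B ^ n) v) = 0 := by
  induction n using Nat.strong_induction_on with
  | _ n ih =>
    rcases lt_or_ge n j with h | h
    · rw [LinearMap.sub_apply, Module.End.mul_apply, Module.End.mul_apply, hU n h.le]
      have h1 := hU (n + 1) h
      rw [pow_succ', Module.End.mul_apply, Module.End.mul_apply] at h1
      rw [h1, sub_self]
    · obtain ⟨m, rfl⟩ := Nat.exists_eq_add_of_le h
      have h1 : (B ^ (j + m)) v = C ((B ^ m) v) := by
        rw [add_comm, pow_add, Module.End.mul_apply, ← hCv, Fwd_comm (hBC.pow_left m)]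
      rw [h1, ← Module.End.mul_apply, hz, Module.End.mul_apply, ih m (by omega), map_zero]

theorem Fwd_T' {B C U : Module.End k V} (hBC : Commute B C)
    (hz : (U * B - B * U) * C = C * (U * B - B * U)) {v v' : V} {j : ℕ}
    (hCv : C v = (B ^ j) v) (hU : ∀ i ≤ j, U ((B ^ i) v) = (B ^ i) v') (hj : 1 ≤ j) (n : ℕ) :
    U ((B ^ n) v) = (B ^ n) v' := by
  induction n with
  | zero => exact hU 0 (Nat.zero_le _)
  | succ n ih =>
    have h := Fwd_T hBC hz hCv hU hj n
    rw [LinearMap.sub_apply, Module.End.mul_apply, Module.End.mul_apply, sub_eq_zero] at h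
    rw [pow_succ', Module.End.mul_apply, Module.End.mul_apply, h, ih]

theorem Fwd_Y {B Y Z : Module.End k V} (hZ : Z = B * Y - Y * B) {v : V}
    (h : ∀ n, Z ((B ^ n) v) = 0) (n : ℕ) : (B ^ n) (Y v) = Y ((B ^ n) v) := by
  induction n with
  | zero => rfl
  | succ n ih =>
    have h1 := h n
    rw [hZ, LinearMap.sub_apply, Module.End.mul_apply, Module.End.mul_apply, sub_eq_zero] at h1
    rw [pow_succ', Module.End.mul_apply, Module.End.mul_apply, ih, h1]

/-- `Y v` inherits `C v = B^j v` -/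
theorem Fwd_CY {B C Y : Module.End k V} (hYC : Commute Y C) {v : V} {j : ℕ}
    (hCv : C v = (B ^ j) v) (h : (B ^ j) (Y v) = Y ((B ^ j) v)) : C (Y v) = (B ^ j) (Y v) := by
  rw [h, ← hCv, Fwd_comm hYC]

theorem fwd (D : Clz) (q : ℕ) (s U X : Module.End k V) (hX : s * U - U * s = X)
    (hc : Commute (X ^ q) ((X - U) ^ q)) (e : V) (hR : Rels D q X U e) (n₀ t : ℕ)
    (hs : s (((X ^ q) ^ n₀) e) = 0) (ht : D.f^[t] n₀ = D.rh)
    (hlt : ∀ t' < t, D.f^[t'] n₀ % D.d ≠ D.rh) :
    X (((X ^ q) ^ D.rh) (U e)) = 0 := by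
  obtain ⟨Y, hY⟩ : ∃ Y : Module.End k V, Y = X - U := ⟨_, rfl⟩
  obtain ⟨B, hB⟩ : ∃ B : Module.End k V, B = X ^ q := ⟨_, rfl⟩
  obtain ⟨C, hC⟩ : ∃ C : Module.End k V, C = Y ^ q := ⟨_, rfl⟩
  obtain ⟨r1, r2, r3, r4, r5, r6, r7, r8, r9, r10, r11⟩ := hR
  simp only [← hY, ← hB, ← hC] at hc r1 r2 r3 r4 r5 r6 r7 r8 r9 r10 r11 hs ⊢
  have hXB : Commute X B := by
    rw [hB]
    exact Commute.pow_right (Commute.refl X) q
  have hYC : Commute Y C := by
    rw [hC]
    exact Commute.pow_right (Commute.refl Y) q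
  have hUXY : U = X - Y := by
    rw [hY]
    abel
  have hzY : U * B - B * U = B * Y - Y * B := by
    rw [hUXY, sub_mul, mul_sub, hXB.eq]
    abel
  have hzC : (U * B - B * U) * C = C * (U * B - B * U) := by
    rw [hzY, sub_mul, mul_sub]
    congr 1
    · rw [mul_assoc, hYC.eq, ← mul_assoc, hc.eq, mul_assoc]
    · rw [mul_assoc, hc.eq, ← mul_assoc, hYC.eq, mul_assoc]
  -- w
  have hwX : ∀ x, U (C x) = C (U x) → X (C x) = C (X x) := by
    intro x hx
    have h1 : U * C - C * U = X * C - C * X := by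
      rw [hUXY, sub_mul, mul_sub, hYC.eq]
      abel
    have h2 : (X * C - C * X) x = 0 := by
      rw [← h1, LinearMap.sub_apply, Module.End.mul_apply, Module.End.mul_apply, hx, sub_self]
    rw [LinearMap.sub_apply, Module.End.mul_apply, Module.End.mul_apply, sub_eq_zero] at h2
    exact h2
  have hwB : ∀ x, U (C x) = C (U x) → U (C (B x)) = C (U (B x)) := by
    intro x hx
    have h1 : U * C - C * U = X * C - C * X := by
      rw [hUXY, sub_mul, mul_sub, hYC.eq]
      abel
    have h2 : (U * C - C * U) * B = B * (U * C - C * U) := by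
      rw [h1, sub_mul, mul_sub]
      congr 1
      · rw [mul_assoc, ← hc.eq, ← mul_assoc, hXB.eq, mul_assoc]
      · rw [mul_assoc, hXB.eq, ← mul_assoc, ← hc.eq, mul_assoc]
    have h3 : ((U * C - C * U) * B) x = 0 := by
      rw [h2, Module.End.mul_apply, LinearMap.sub_apply, Module.End.mul_apply,
        Module.End.mul_apply, hx, sub_self, map_zero]
    rw [Module.End.mul_apply, LinearMap.sub_apply, Module.End.mul_apply, Module.End.mul_apply,
      sub_eq_zero] at h3
    exact h3
  -- (1)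
  have c1 : C e = (B ^ 1) e := by rw [pow_one, r1]
  have u1 : ∀ i ≤ 1, U ((B ^ i) e) = (B ^ i) (U e) := by
    intro i hi
    interval_cases i
    · rfl
    · rw [pow_one]
      exact r2
  have E1 : ∀ n, U ((B ^ n) e) = (B ^ n) (U e) := Fwd_T' hc hzC c1 u1 le_rfl
  have E1z := Fwd_T hc hzC c1 u1 le_rfl
  -- (2)
  have YE : ∀ n, (B ^ n) (Y e) = Y ((B ^ n) e) := Fwd_Y hzY E1z
  have E2 : ∀ n, U (Y ((B ^ n) e)) = 0 := by
    intro n
    have h := Fwd_T' hc hzC (v' := 0) (Fwd_CY hYC c1 (YE 1)) (by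
      intro i hi
      rw [map_zero]
      interval_cases i
      · exact r6
      · rw [pow_one]
        exact r7) le_rfl n
    rw [← YE n, h, map_zero]
  have E2' : ∀ n, U (X ((B ^ n) e)) = U (U ((B ^ n) e)) := by
    intro n
    have h1 : X ((B ^ n) e) = U ((B ^ n) e) + Y ((B ^ n) e) := by
      rw [← LinearMap.add_apply, hUXY, sub_add_cancel]
    rw [h1, map_add, E2 n, add_zero]
  -- (3)
  have c3 : C (X (U e)) = (B ^ D.d) (X (U e)) := by
    rw [← hwX (U e) r4, ← r3, Fwd_comm (hXB.pow_right D.d)]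
  have G3 : ∀ n, U (X ((B ^ n) (U e))) = 0 := by
    intro n
    have h := Fwd_T' hc hzC (v' := 0) c3 (by
      intro i hi
      rw [map_zero]
      exact r8 i hi) D.hd n
    have h2 : X ((B ^ n) (U e)) = (B ^ n) (X (U e)) := Fwd_comm (hXB.pow_right n) _
    rw [h2, h, map_zero]
  -- (4)
  have u4 : ∀ r < D.d, r ≠ D.rh → ∀ i ≤ D.al r,
      U ((B ^ i) (U ((B ^ r) (U e)))) = (B ^ i) ((B ^ D.be r) e) := by
    intro r hr hrr i hi
    rw [r10 r hr hrr i hi, pow_add, Module.End.mul_apply]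
  have H4 : ∀ r < D.d, r ≠ D.rh → ∀ n,
      U ((B ^ n) (U ((B ^ r) (U e)))) = (B ^ (n + D.be r)) e := by
    intro r hr hrr n
    rw [Fwd_T' hc hzC (r9 r hr hrr) (u4 r hr hrr) (D.hal r) n, pow_add, Module.End.mul_apply]
  -- (5)
  have H5 : ∀ r < D.d, r ≠ D.rh → ∀ n,
      U (X ((B ^ n) (U ((B ^ r) (U e))))) = U (U ((B ^ n) (U ((B ^ r) (U e))))) := by
    intro r hr hrr n
    have z5 := Fwd_T hc hzC (r9 r hr hrr) (u4 r hr hrr) (D.hal r)
    have y5 := Fwd_Y hzY z5
    have h := Fwd_T' hc hzC (v' := 0) (Fwd_CY hYC (r9 r hr hrr) (y5 _)) (by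
      intro i hi
      rw [map_zero]
      exact r11 r hr hrr i hi) (D.hal r) n
    have h1 : X ((B ^ n) (U ((B ^ r) (U e)))) =
        U ((B ^ n) (U ((B ^ r) (U e)))) + Y ((B ^ n) (U ((B ^ r) (U e)))) := by
      rw [← LinearMap.add_apply, hUXY, sub_add_cancel]
    rw [h1, map_add, ← y5 n, h, map_zero, add_zero]
  -- (6)
  have w6 : ∀ n, U (C ((B ^ n) (U e))) = C (U ((B ^ n) (U e))) := by
    intro n
    induction n with
    | zero => exact r4
    | succ n ih =>
      rw [pow_succ', Module.End.mul_apply]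
      exact hwB _ ih
  have g6 : ∀ n, (B ^ (n + D.d)) (U e) = C ((B ^ n) (U e)) := by
    intro n
    rw [pow_add, Module.End.mul_apply, r3, Fwd_comm (hc.pow_left n)]
  have G6 : ∀ n, U ((B ^ (n + D.d)) (U e)) = C (U ((B ^ n) (U e))) := by
    intro n
    rw [g6, w6]
  have G7 : ∀ r < D.d, r ≠ D.rh → ∀ m,
      U ((B ^ (D.d * m + r)) (U e)) = (B ^ (D.al r * m)) (U ((B ^ r) (U e))) := by
    intro r hr hrr m
    induction m with
    | zero =>
      rw [mul_zero, zero_add, mul_zero, pow_zero, Module.End.one_apply]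
    | succ m ih =>
      have e1 : D.d * (m + 1) + r = (D.d * m + r) + D.d := by ring
      have e2 : D.al r * (m + 1) = D.al r * m + D.al r := by ring
      rw [e1, G6, ih, e2, pow_add, Module.End.mul_apply, ← r9 r hr hrr,
        Fwd_comm (hc.pow_left _)]
  have G8 : ∀ m, U ((B ^ (D.d * m + D.rh)) (U e)) = 0 := by
    intro m
    induction m with
    | zero =>
      rw [mul_zero, zero_add]
      exact r5
    | succ m ih =>
      have e1 : D.d * (m + 1) + D.rh = (D.d * m + D.rh) + D.d := by ring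
      rw [e1, G6, ih, map_zero]
  -- dynamics
  have hstep : ∀ n, n % D.d ≠ D.rh → U ((B ^ n) (U e)) =
      (B ^ (D.al (n % D.d) * (n / D.d))) (U ((B ^ (n % D.d)) (U e))) := by
    intro n hn
    have h := G7 (n % D.d) (Nat.mod_lt _ D.hd) hn (n / D.d)
    rw [Nat.div_add_mod] at h
    exact h
  have hrun : ∀ n, n % D.d ≠ D.rh → U (U (U ((B ^ n) e))) = (B ^ (D.f n)) e := by
    intro n hn
    rw [E1, hstep n hn, H4 _ (Nat.mod_lt _ D.hd) hn]
    rfl
  have hsU : ∀ v, s (U v) = U (s v) + X v := by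
    intro v
    rw [← hX, LinearMap.sub_apply, Module.End.mul_apply, Module.End.mul_apply]
    abel
  -- the orbit dies
  have hdie : ∀ m ≤ t, (U ^ (3 * m + 2)) ((B ^ (D.f^[t - m] n₀)) e) = 0 := by
    intro m
    induction m with
    | zero =>
      intro _
      rw [Nat.sub_zero, ht]
      have h := G8 0
      rw [mul_zero, zero_add] at h
      show (U ^ (0 + 2)) _ = 0
      rw [zero_add, pow_two, Module.End.mul_apply, E1, h]
    | succ m ih =>
      intro hm
      have h1 := hrun (D.f^[t - (m + 1)] n₀) (hlt _ (by omega))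
      have h2 : D.f (D.f^[t - (m + 1)] n₀) = D.f^[t - m] n₀ := by
        rw [← Function.iterate_succ_apply' D.f]
        congr 2
        omega
      rw [h2] at h1
      have e1 : 3 * (m + 1) + 2 = (3 * m + 2) + 1 + 1 + 1 := by ring
      rw [e1, pow_succ, Module.End.mul_apply, pow_succ, Module.End.mul_apply, pow_succ,
        Module.End.mul_apply, h1, ih (by omega)]
  have hZ : ∀ j ≤ t, (U ^ (3 * (t - j) + 2)) (s ((B ^ (D.f^[j] n₀)) e)) = 0 := by
    intro j
    induction j with
    | zero =>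
      intro _
      rw [Function.iterate_zero_apply, hs, map_zero]
    | succ j ih =>
      intro hj
      have hnj := hlt j (by omega)
      have h1 := hrun (D.f^[j] n₀) hnj
      have h2 : D.f^[j + 1] n₀ = D.f (D.f^[j] n₀) := Function.iterate_succ_apply' D.f j n₀
      have hd := hdie (t - (j + 1)) (by omega)
      have e0 : t - (t - (j + 1)) = j + 1 := by omega
      rw [e0, h2, ← h1] at hd
      rw [h2, ← h1]
      have ih' := ih (by omega)
      have e1 : 3 * (t - j) + 2 = (3 * (t - (j + 1)) + 2) + 1 + 1 + 1 := by omega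
      rw [e1, pow_succ, Module.End.mul_apply, pow_succ, Module.End.mul_apply, pow_succ,
        Module.End.mul_apply] at ih'
      set n := D.f^[j] n₀ with hn
      have hG := E1 n
      have hH := hstep n hnj
      have t1 : U (X (U (U ((B ^ n) e)))) = U (U (U (U ((B ^ n) e)))) := by
        rw [hG, hH]
        exact H5 _ (Nat.mod_lt _ D.hd) hnj _
      have t2 : U (X (U ((B ^ n) e))) = 0 := by
        rw [hG]
        exact G3 n
      have t3 := E2' n
      have key : s (U (U (U ((B ^ n) e)))) = U (U (U (s ((B ^ n) e)))) +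
          U (U (U ((B ^ n) e))) + X (U (U ((B ^ n) e))) := by
        rw [hsU, hsU, hsU]
        simp only [map_add]
        rw [t3, t2, add_zero]
      rw [key, map_add, map_add, ih', hd, zero_add, zero_add]
      have e2 : 3 * (t - (j + 1)) + 2 = (3 * (t - (j + 1)) + 1) + 1 := by ring
      rw [e2] at hd ⊢
      rw [pow_succ, Module.End.mul_apply, t1, ← Module.End.mul_apply, ← pow_succ]
      exact hd
  have hfin := hZ t le_rfl
  rw [ht, Nat.sub_self, mul_zero, zero_add, pow_two, Module.End.mul_apply] at hfin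
  have h0 := G8 0
  rw [mul_zero, zero_add] at h0
  have h1 : U (U ((B ^ D.rh) e)) = 0 := by
    rw [E1, h0]
  have h2 := congrArg s h1
  rw [hsU, hsU, map_add, hfin, E2', h1, map_zero, E1] at h2
  simpa using h2

end OneRelP
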