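import Pool.Agent.Lib.MP_85de51_alP.Poly
set_option autoImplicit false

/-!
# The instances of the membership problem
-/

namespace OneRelP

open MP_85de51_al

/-- a list of bracketings representing `F · z` -/
noncomputable def toL (k : Type) [Field k] (F : FreeAlgebra k (Fin 2)) :
    List (k × FreeMagma (Fin 3)) := Classical.choose (exists_sem k F)

theorem toL_spec (k : Type) [Field k] (F : FreeAlgebra k (Fin 2)) : Sem k F (toL k F) :=
  Classical.choose_spec (exists_sem k F)

/-- the letters -/
noncomputable def S0 (k : Type) [Field k] : FreeAlgebra k (Fin 2) := FreeAlgebra.ι k 0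
noncomputable def U0 (k : Type) [Field k] : FreeAlgebra k (Fin 2) := FreeAlgebra.ι k 1
noncomputable def X0 (k : Type) [Field k] : FreeAlgebra k (Fin 2) :=
  S0 k * U0 k - U0 k * S0 k

/-- the instance with parameter `n` -/
noncomputable def inst (k : Type) [Field k] (D : Clz) (q n : ℕ) :
    List (List (k × FreeMagma (Fin 3))) × List (k × FreeMagma (Fin 3)) :=
  ([(1, gs * powX (q * n))] :: [(1, gs)] :: [(1, gu)] ::
    (rels D q (X0 k) (U0 k)).map (toL k), toL k (targ D q (X0 k) (U0 k)))

end OneRelP
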