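import Pool.Agent.Lib.MP_85de51_alP.Defs
import Pool.Agent.Lib.MP_e16db3_al.Undec
set_option autoImplicit false

/-!
# Flow charts on one register: definitions
-/

namespace OneRelP

open Pool.Agent.WreathContraction

/-- A flow chart on one register: in state `s` test whether the register is divisible by `l s`;
if so divide by it and multiply by a constant, otherwise multiply by a constant. -/
structure FM where
  /-- states -/
  S : Type
  /-- the tested divisor -/
  l : S → ℕ
  /-- next state and multiplier in the positive case -/
  yes : S → S × ℕ
  /-- next state and multiplier in the negative case -/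
  no : S → S × ℕ

/-- one step -/
def FM.step (M : FM) (c : M.S × ℕ) : M.S × ℕ :=
  if M.l c.1 ∣ c.2 then ((M.yes c.1).1, c.2 / M.l c.1 * (M.yes c.1).2)
  else ((M.no c.1).1, c.2 * (M.no c.1).2)

end OneRelP
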