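import Pool.Agent.Lib.MP_85de51_alP.Mach
set_option autoImplicit false

/-!
# JOB MachFM: a two-register affine machine as a flow chart

The state `s` of `M` with registers `(a, b)` (and a clock `τ`) is represented by the register
`N = 2^a 3^b 11^τ`. One step of `M` in state `s`: `a = Q c + j`, `b = Q c' + j'`,
`(a, b) ↦ (A c + B, A' c' + B')` with `(A, A') = M.A s (j, j')`, `(B, B') = M.B s (j, j')`.
States of the flow chart `P` (an inductive type, finite as `M.S` and `Fin Q` are finite):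
* `D1 s j` (`j : Fin Q`): test `2`; yes: if `j + 1 < Q` go to `D1 s (j+1)` with multiplier `1`, if
`j + 1 = Q` go to `D1 s 0` with multiplier `5`; no: go to `D2 s j 0`, multiplier `1`;
* `D2 s j j'`: test `3`; yes: `j' + 1 < Q`: `D2 s j (j'+1)`, multiplier `1`; `j' + 1 = Q`: `D2 s j 0`,
multiplier `7`; no: go to `M1 s j j'` with multiplier `2^B 3^B' 11`;
* `M1 s j j'`: test `5`; yes: stay, multiplier `2^A`; no: go to `M2 s j j'`, multiplier `1`;
* `M2 s j j'`: test `7`; yes: stay, multiplier `3^A'`; no: multiplier `1`, go to `D1 s' 0` with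
`s' = M.next s (j, j')` if `M.halt s' = false`, and to `H1` if `M.halt s' = true`;
* `H1`: test `2`; yes: stay; no: `H2`. `H2`: test `3`; yes: stay; no: `H3`. `H3`: test `11`; yes: stay;
no: go to `F` (multipliers `1`). `F`: test `1`, yes: stay in `F` with multiplier `1` (so `F` is absorbing,
`(F, 1)` is fixed).
`st s = D1 s 0` if `M.halt s = false`, `st s = H1` if `M.halt s = true`.
Macro step: `(D1 s 0, 2^a 3^b 11^τ) →⁺ (D1 s' 0, 2^{a'} 3^{b'} 11^{τ+1})` or `(H1, the same)`.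
(`D1 s 0, 2^{Qc+j} K) →* (D1 s j, 5^c K)` for `K` coprime to `2`, etc.: loops are handled by induction.
Note that `M.step` uses `a / Q` and the residue `(a : ZMod Q)`; `Fin Q` versus `ZMod Q`: choose
`j : ZMod Q` or convert by `((j : ℕ) : ZMod Q)`.)
`(H1, 2^a 3^b 11^τ) →* (F, 1)`.
HALTING: take the least `k` with `M.halt (M.step^[k] c).1`; the macro steps lead to `H1` and then to `(F, 1)`.
`F` is absorbing; so if `t` is the first time at which the state is `F` (`Nat.find`), all earlier states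
are different from `F`, and the register at that time is `1`: (`F` is entered only from `H3` and the run
from `H1` reaches `(F, 1)` at some time `t₁ ≥ t`; since `F` does not change the register, the register at
time `t` is `1` too.)
NOT HALTING: for every `τ` the run passes through a configuration `(D1 s 0, N)` with `11^τ ∣ N`, `N > 0`, at a
time `t_τ`, with `t_τ` strictly increasing. If the state at time `t` were `F`, all later states would be
`F`, a contradiction. If `P.step^[t] c = P.step^[t'] c` with `t < t'` then the run is periodic from `t` on, so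
it has only finitely many configurations, contradicting `11^τ ∣ N`, `N > 0` for all `τ` (`N ≥ 11^τ`).
-/

namespace OneRelP

open Pool.Agent.WreathContraction

/-- states of the flow chart -/
inductive MachFM_St (S : Type) (Q : ℕ) : Type
  | D1 (s : S) (j : Fin Q)
  | D2 (s : S) (j j' : Fin Q)
  | M1 (s : S) (j j' : Fin Q)
  | M2 (s : S) (j j' : Fin Q)
  | H1
  | H2
  | H3
  | F

open MachFM_St

theorem MachFM_finite (S : Type) (Q : ℕ) [Finite S] : Finite (MachFM_St S Q) := by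
  let f : MachFM_St S Q → Fin 8 × Option S × Option (Fin Q) × Option (Fin Q) := fun x =>
    match x with
    | D1 s j => (0, some s, some j, none)
    | D2 s j j' => (1, some s, some j, some j')
    | M1 s j j' => (2, some s, some j, some j')
    | M2 s j j' => (3, some s, some j, some j')
    | H1 => (4, none, none, none)
    | H2 => (5, none, none, none)
    | H3 => (6, none, none, none)
    | F => (7, none, none, none)
  refine Finite.of_injective f fun x y h => ?_
  cases x <;> cases y <;> simp [f] at h <;> simp [h]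

section

variable (M : Mach) (hQ : 2 ≤ M.Q)

/-- the state of the flow chart representing the state `s` -/
def MachFM_st (s : M.S) : MachFM_St M.S M.Q :=
  if M.halt s = true then H1 else D1 s ⟨0, by omega⟩

/-- the tested divisors -/
def MachFM_l : MachFM_St M.S M.Q → ℕ := fun x => match x with
  | D1 _ _ => 2
  | D2 _ _ _ => 3
  | M1 _ _ _ => 5
  | M2 _ _ _ => 7
  | H1 => 2
  | H2 => 3
  | H3 => 11
  | F => 1

/-- the positive case -/
def MachFM_y : MachFM_St M.S M.Q → MachFM_St M.S M.Q × ℕ := fun x => match x with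
  | D1 s j => if h : (j : ℕ) + 1 < M.Q then (D1 s ⟨j + 1, h⟩, 1) else (D1 s ⟨0, by omega⟩, 5)
  | D2 s j j' =>
    if h : (j' : ℕ) + 1 < M.Q then (D2 s j ⟨j' + 1, h⟩, 1) else (D2 s j ⟨0, by omega⟩, 7)
  | M1 s j j' => (M1 s j j', 2 ^ (M.A s (((j : ℕ) : ZMod M.Q), ((j' : ℕ) : ZMod M.Q))).1)
  | M2 s j j' => (M2 s j j', 3 ^ (M.A s (((j : ℕ) : ZMod M.Q), ((j' : ℕ) : ZMod M.Q))).2)
  | H1 => (H1, 1)
  | H2 => (H2, 1)
  | H3 => (H3, 1)
  | F => (F, 1)

/-- the negative case -/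
def MachFM_n : MachFM_St M.S M.Q → MachFM_St M.S M.Q × ℕ := fun x => match x with
  | D1 s j => (D2 s j ⟨0, by omega⟩, 1)
  | D2 s j j' => (M1 s j j', 2 ^ (M.B s (((j : ℕ) : ZMod M.Q), ((j' : ℕ) : ZMod M.Q))).1
      * 3 ^ (M.B s (((j : ℕ) : ZMod M.Q), ((j' : ℕ) : ZMod M.Q))).2 * 11)
  | M1 s j j' => (M2 s j j', 1)
  | M2 s j j' => (MachFM_st M hQ (M.next s (((j : ℕ) : ZMod M.Q), ((j' : ℕ) : ZMod M.Q))), 1)
  | H1 => (H2, 1)
  | H2 => (H3, 1)
  | H3 => (F, 1)
  | F => (F, 1)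

/-- the flow chart -/
def MachFM_P : FM where
  S := MachFM_St M.S M.Q
  l := MachFM_l M
  yes := MachFM_y M hQ
  no := MachFM_n M hQ

/-- one step -/
def MachFM_step : MachFM_St M.S M.Q × ℕ → MachFM_St M.S M.Q × ℕ := fun c =>
  if MachFM_l M c.1 ∣ c.2 then ((MachFM_y M hQ c.1).1, c.2 / MachFM_l M c.1 * (MachFM_y M hQ c.1).2)
  else ((MachFM_n M hQ c.1).1, c.2 * (MachFM_n M hQ c.1).2)

/-- reachability -/
def MachFM_star (c c' : MachFM_St M.S M.Q × ℕ) : Prop :=
  ∃ t : ℕ, (MachFM_step M hQ)^[t] c = c'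

variable {M} {hQ}

theorem MachFM_star.refl (c : MachFM_St M.S M.Q × ℕ) : MachFM_star M hQ c c := ⟨0, rfl⟩

theorem MachFM_star.trans {c c' c'' : MachFM_St M.S M.Q × ℕ} (h : MachFM_star M hQ c c')
    (h' : MachFM_star M hQ c' c'') : MachFM_star M hQ c c'' := by
  obtain ⟨t, rfl⟩ := h
  obtain ⟨t', rfl⟩ := h'
  exact ⟨t' + t, by rw [Function.iterate_add_apply]⟩

theorem MachFM_star.step {c c' : MachFM_St M.S M.Q × ℕ} (h : MachFM_step M hQ c = c') :
    MachFM_star M hQ c c' := ⟨1, h⟩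

theorem MachFM_yes {x : MachFM_St M.S M.Q} {n m : ℕ} {l : ℕ} (hl : MachFM_l M x = l)
    (hl0 : 0 < l) (hn : n = l * m) :
    MachFM_step M hQ (x, n) = ((MachFM_y M hQ x).1, m * (MachFM_y M hQ x).2) := by
  unfold MachFM_step
  simp only
  rw [hl, hn, if_pos (Dvd.intro _ rfl), Nat.mul_div_cancel_left _ hl0]

theorem MachFM_no {x : MachFM_St M.S M.Q} {n : ℕ} {l : ℕ} (hl : MachFM_l M x = l)
    (hn : ¬ l ∣ n) :
    MachFM_step M hQ (x, n) = ((MachFM_n M hQ x).1, n * (MachFM_n M hQ x).2) := by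
  unfold MachFM_step
  simp only
  rw [hl, if_neg hn]

theorem MachFM_D1 (s : M.S) {K : ℕ} (a : ℕ) (j : Fin M.Q) (hK : ¬ 2 ∣ K) :
    MachFM_star M hQ (D1 s j, 2 ^ a * K)
      (D1 s ⟨(j + a) % M.Q, Nat.mod_lt _ (by omega)⟩, 5 ^ ((j + a) / M.Q) * K) := by
  induction a generalizing j K with
  | zero =>
    have h1 : ((j : ℕ) + 0) % M.Q = j := by rw [add_zero, Nat.mod_eq_of_lt j.2]
    have h2 : ((j : ℕ) + 0) / M.Q = 0 := by rw [add_zero, Nat.div_eq_of_lt j.2]
    simp only [h1, h2]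
    exact MachFM_star.refl _
  | succ a ih =>
    have hs : MachFM_step M hQ (D1 s j, 2 ^ (a + 1) * K)
        = ((MachFM_y M hQ (D1 s j)).1, (2 ^ a * K) * (MachFM_y M hQ (D1 s j)).2) :=
      MachFM_yes (l := 2) rfl (by norm_num) (by ring)
    refine MachFM_star.trans (MachFM_star.step hs) ?_
    have hy : MachFM_y M hQ (D1 s j)
        = if h : (j : ℕ) + 1 < M.Q then (D1 s ⟨j + 1, h⟩, 1) else (D1 s ⟨0, by omega⟩, 5) := rfl
    rw [hy]
    by_cases h : (j : ℕ) + 1 < M.Q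
    · rw [dif_pos h]
      have := ih (K := K) ⟨j + 1, h⟩ hK
      have e : (j : ℕ) + (a + 1) = (j + 1) + a := by omega
      simp only [mul_one, e]
      exact this
    · rw [dif_neg h]
      have hj : (j : ℕ) + 1 = M.Q := by have := j.2; omega
      have hK' : ¬ 2 ∣ K * 5 := by omega
      have := ih (K := K * 5) ⟨0, by omega⟩ hK'
      have e1 : ((j : ℕ) + (a + 1)) % M.Q = (0 + a) % M.Q := by
        have : (j : ℕ) + (a + 1) = (0 + a) + M.Q := by omega
        rw [this, Nat.add_mod_right]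
      have e2 : ((j : ℕ) + (a + 1)) / M.Q = (0 + a) / M.Q + 1 := by
        have : (j : ℕ) + (a + 1) = (0 + a) + M.Q := by omega
        rw [this, Nat.add_div_right _ (by omega)]
      simp only [e1, e2]
      have e3 : 2 ^ a * K * 5 = 2 ^ a * (K * 5) := by ring
      have e4 : 5 ^ ((0 + a) / M.Q + 1) * K = 5 ^ ((0 + a) / M.Q) * (K * 5) := by ring
      rw [e3, e4]
      exact this

theorem MachFM_D2 (s : M.S) (i : Fin M.Q) {K : ℕ} (a : ℕ) (j : Fin M.Q) (hK : ¬ 3 ∣ K) :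
    MachFM_star M hQ (D2 s i j, 3 ^ a * K)
      (D2 s i ⟨(j + a) % M.Q, Nat.mod_lt _ (by omega)⟩, 7 ^ ((j + a) / M.Q) * K) := by
  induction a generalizing j K with
  | zero =>
    have h1 : ((j : ℕ) + 0) % M.Q = j := by rw [add_zero, Nat.mod_eq_of_lt j.2]
    have h2 : ((j : ℕ) + 0) / M.Q = 0 := by rw [add_zero, Nat.div_eq_of_lt j.2]
    simp only [h1, h2]
    exact MachFM_star.refl _
  | succ a ih =>
    have hs : MachFM_step M hQ (D2 s i j, 3 ^ (a + 1) * K)
        = ((MachFM_y M hQ (D2 s i j)).1, (3 ^ a * K) * (MachFM_y M hQ (D2 s i j)).2) :=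
      MachFM_yes (l := 3) rfl (by norm_num) (by ring)
    refine MachFM_star.trans (MachFM_star.step hs) ?_
    have hy : MachFM_y M hQ (D2 s i j)
        = if h : (j : ℕ) + 1 < M.Q then (D2 s i ⟨j + 1, h⟩, 1) else (D2 s i ⟨0, by omega⟩, 7) := rfl
    rw [hy]
    by_cases h : (j : ℕ) + 1 < M.Q
    · rw [dif_pos h]
      have := ih (K := K) ⟨j + 1, h⟩ hK
      have e : (j : ℕ) + (a + 1) = (j + 1) + a := by omega
      simp only [mul_one, e]
      exact this
    · rw [dif_neg h]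
      have hj : (j : ℕ) + 1 = M.Q := by have := j.2; omega
      have hK' : ¬ 3 ∣ K * 7 := by omega
      have := ih (K := K * 7) ⟨0, by omega⟩ hK'
      have e1 : ((j : ℕ) + (a + 1)) % M.Q = (0 + a) % M.Q := by
        have : (j : ℕ) + (a + 1) = (0 + a) + M.Q := by omega
        rw [this, Nat.add_mod_right]
      have e2 : ((j : ℕ) + (a + 1)) / M.Q = (0 + a) / M.Q + 1 := by
        have : (j : ℕ) + (a + 1) = (0 + a) + M.Q := by omega
        rw [this, Nat.add_div_right _ (by omega)]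
      simp only [e1, e2]
      have e3 : 3 ^ a * K * 7 = 3 ^ a * (K * 7) := by ring
      have e4 : 7 ^ ((0 + a) / M.Q + 1) * K = 7 ^ ((0 + a) / M.Q) * (K * 7) := by ring
      rw [e3, e4]
      exact this

/-- a loop that stays in the state -/
theorem MachFM_loop {x : MachFM_St M.S M.Q} {l m : ℕ} (hl : MachFM_l M x = l) (hl0 : 0 < l)
    (hy : MachFM_y M hQ x = (x, m)) (a K : ℕ) :
    MachFM_star M hQ (x, l ^ a * K) (x, m ^ a * K) := by
  induction a generalizing K with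
  | zero => simp only [pow_zero]; exact MachFM_star.refl _
  | succ a ih =>
    have hs : MachFM_step M hQ (x, l ^ (a + 1) * K)
        = ((MachFM_y M hQ x).1, (l ^ a * K) * (MachFM_y M hQ x).2) :=
      MachFM_yes hl hl0 (by ring)
    rw [hy] at hs
    refine MachFM_star.trans (MachFM_star.step hs) ?_
    have := ih (K * m)
    have e3 : l ^ a * K * m = l ^ a * (K * m) := by ring
    have e4 : m ^ (a + 1) * K = m ^ a * (K * m) := by ring
    simp only
    rw [e3, e4]
    exact this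

/-- the code of the registers -/
def MachFM_enc (a b τ : ℕ) : ℕ := 2 ^ a * 3 ^ b * 11 ^ τ

theorem MachFM_nd {p q : ℕ} (hp : p.Prime) (hq : q.Prime) (h : p ≠ q) (n : ℕ) : ¬ p ∣ q ^ n :=
  fun hd => h ((Nat.prime_dvd_prime_iff_eq hp hq).1 (hp.dvd_of_dvd_pow hd))

theorem MachFM_nmul {p a b : ℕ} (hp : p.Prime) (h1 : ¬ p ∣ a) (h2 : ¬ p ∣ b) : ¬ p ∣ a * b :=
  fun h => (hp.dvd_mul.1 h).elim h1 h2

/-- the macro step -/
theorem MachFM_macro {s : M.S} (hs : M.halt s = false) (a b τ : ℕ) :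
    ∃ t : ℕ, (MachFM_step M hQ)^[t + 1] (MachFM_st M hQ s, MachFM_enc a b τ)
      = (MachFM_st M hQ (M.step (s, a, b)).1,
        MachFM_enc (M.step (s, a, b)).2.1 (M.step (s, a, b)).2.2 (τ + 1)) := by
  have p2 := Nat.prime_two
  have p3 := Nat.prime_three
  have p5 := Nat.prime_five
  have p7 : Nat.Prime 7 := by norm_num
  have p11 : Nat.Prime 11 := by norm_num
  set j : Fin M.Q := ⟨a % M.Q, Nat.mod_lt _ (by omega)⟩ with hj
  set j' : Fin M.Q := ⟨b % M.Q, Nat.mod_lt _ (by omega)⟩ with hj'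
  have ej : (((j : ℕ)) : ZMod M.Q) = (a : ZMod M.Q) := by rw [hj]; simp
  have ej' : (((j' : ℕ)) : ZMod M.Q) = (b : ZMod M.Q) := by rw [hj']; simp
  set A := M.A s ((a : ZMod M.Q), (b : ZMod M.Q)) with hA
  set B := M.B s ((a : ZMod M.Q), (b : ZMod M.Q)) with hB
  have e0 : MachFM_st M hQ s = D1 s ⟨0, by omega⟩ := by
    unfold MachFM_st; rw [if_neg (by simp [hs])]
  -- first loop
  have r1 : MachFM_star M hQ (D1 s ⟨0, by omega⟩, MachFM_enc a b τ)
      (D1 s j, 5 ^ (a / M.Q) * (3 ^ b * 11 ^ τ)) := by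
    have := MachFM_D1 (hQ := hQ) s (K := 3 ^ b * 11 ^ τ) a ⟨0, by omega⟩
      (MachFM_nmul p2 (MachFM_nd p2 p3 (by norm_num) b) (MachFM_nd p2 p11 (by norm_num) τ))
    simp only [Nat.zero_add] at this
    have e : MachFM_enc a b τ = 2 ^ a * (3 ^ b * 11 ^ τ) := by unfold MachFM_enc; ring
    rw [e]
    exact this
  have r2 : MachFM_step M hQ (D1 s j, 5 ^ (a / M.Q) * (3 ^ b * 11 ^ τ))
      = (D2 s j ⟨0, by omega⟩, 3 ^ b * (5 ^ (a / M.Q) * 11 ^ τ)) := by
    rw [MachFM_no (l := 2) rfl]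
    · have e : 5 ^ (a / M.Q) * (3 ^ b * 11 ^ τ) * 1 = 3 ^ b * (5 ^ (a / M.Q) * 11 ^ τ) := by ring
      change (_, 5 ^ (a / M.Q) * (3 ^ b * 11 ^ τ) * 1) = _
      rw [e]
      rfl
    · exact MachFM_nmul p2 (MachFM_nd p2 p5 (by norm_num) _)
        (MachFM_nmul p2 (MachFM_nd p2 p3 (by norm_num) b) (MachFM_nd p2 p11 (by norm_num) τ))
  have r3 : MachFM_star M hQ (D2 s j ⟨0, by omega⟩, 3 ^ b * (5 ^ (a / M.Q) * 11 ^ τ))
      (D2 s j j', 7 ^ (b / M.Q) * (5 ^ (a / M.Q) * 11 ^ τ)) := by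
    have := MachFM_D2 (hQ := hQ) s j (K := 5 ^ (a / M.Q) * 11 ^ τ) b ⟨0, by omega⟩
      (MachFM_nmul p3 (MachFM_nd p3 p5 (by norm_num) _) (MachFM_nd p3 p11 (by norm_num) τ))
    simp only [Nat.zero_add] at this
    exact this
  have r4 : MachFM_step M hQ (D2 s j j', 7 ^ (b / M.Q) * (5 ^ (a / M.Q) * 11 ^ τ))
      = (M1 s j j', 5 ^ (a / M.Q) * (7 ^ (b / M.Q) * 11 ^ (τ + 1) * 2 ^ B.1 * 3 ^ B.2)) := by
    rw [MachFM_no (l := 3) rfl]
    · have e1 : MachFM_n M hQ (D2 s j j') = (M1 s j j', 2 ^ B.1 * 3 ^ B.2 * 11) := by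
        change (M1 s j j', 2 ^ (M.B s (((j : ℕ) : ZMod M.Q), ((j' : ℕ) : ZMod M.Q))).1
          * 3 ^ (M.B s (((j : ℕ) : ZMod M.Q), ((j' : ℕ) : ZMod M.Q))).2 * 11) = _
        rw [ej, ej']
      rw [e1]
      congr 1
      ring
    · exact MachFM_nmul p3 (MachFM_nd p3 p7 (by norm_num) _)
        (MachFM_nmul p3 (MachFM_nd p3 p5 (by norm_num) _) (MachFM_nd p3 p11 (by norm_num) τ))
  have r5 : MachFM_star M hQ
      (M1 s j j', 5 ^ (a / M.Q) * (7 ^ (b / M.Q) * 11 ^ (τ + 1) * 2 ^ B.1 * 3 ^ B.2))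
      (M1 s j j', (2 ^ A.1) ^ (a / M.Q) * (7 ^ (b / M.Q) * 11 ^ (τ + 1) * 2 ^ B.1 * 3 ^ B.2)) := by
    refine MachFM_loop (l := 5) rfl (by norm_num) ?_ _ _
    change (M1 s j j', 2 ^ (M.A s (((j : ℕ) : ZMod M.Q), ((j' : ℕ) : ZMod M.Q))).1) = _
    rw [ej, ej']
  have r6 : MachFM_step M hQ
      (M1 s j j', (2 ^ A.1) ^ (a / M.Q) * (7 ^ (b / M.Q) * 11 ^ (τ + 1) * 2 ^ B.1 * 3 ^ B.2))
      = (M2 s j j', 7 ^ (b / M.Q) * ((2 ^ A.1) ^ (a / M.Q) * 11 ^ (τ + 1) * 2 ^ B.1 * 3 ^ B.2)) := by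
    rw [MachFM_no (l := 5) rfl]
    · have e1 : MachFM_n M hQ (M1 s j j') = (M2 s j j', 1) := rfl
      rw [e1]
      congr 1
      ring
    · rw [← pow_mul]
      refine MachFM_nmul p5 (MachFM_nd p5 p2 (by norm_num) _) (MachFM_nmul p5 (MachFM_nmul p5
        (MachFM_nmul p5 (MachFM_nd p5 p7 (by norm_num) _) (MachFM_nd p5 p11 (by norm_num) _))
        (MachFM_nd p5 p2 (by norm_num) _)) (MachFM_nd p5 p3 (by norm_num) _))
  have r7 : MachFM_star M hQ
      (M2 s j j', 7 ^ (b / M.Q) * ((2 ^ A.1) ^ (a / M.Q) * 11 ^ (τ + 1) * 2 ^ B.1 * 3 ^ B.2))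
      (M2 s j j', (3 ^ A.2) ^ (b / M.Q)
        * ((2 ^ A.1) ^ (a / M.Q) * 11 ^ (τ + 1) * 2 ^ B.1 * 3 ^ B.2)) := by
    refine MachFM_loop (l := 7) rfl (by norm_num) ?_ _ _
    change (M2 s j j', 3 ^ (M.A s (((j : ℕ) : ZMod M.Q), ((j' : ℕ) : ZMod M.Q))).2) = _
    rw [ej, ej']
  have r8 : MachFM_step M hQ (M2 s j j', (3 ^ A.2) ^ (b / M.Q)
        * ((2 ^ A.1) ^ (a / M.Q) * 11 ^ (τ + 1) * 2 ^ B.1 * 3 ^ B.2))
      = (MachFM_st M hQ (M.step (s, a, b)).1,
        MachFM_enc (M.step (s, a, b)).2.1 (M.step (s, a, b)).2.2 (τ + 1)) := by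
    rw [MachFM_no (l := 7) rfl]
    · have e1 : MachFM_n M hQ (M2 s j j') = (MachFM_st M hQ (M.step (s, a, b)).1, 1) := by
        change (MachFM_st M hQ (M.next s (((j : ℕ) : ZMod M.Q), ((j' : ℕ) : ZMod M.Q))), 1) = _
        rw [ej, ej']
        rfl
      rw [e1]
      congr 1
      have e2 : (M.step (s, a, b)).2.1 = A.1 * (a / M.Q) + B.1 := rfl
      have e3 : (M.step (s, a, b)).2.2 = A.2 * (b / M.Q) + B.2 := rfl
      rw [e2, e3]
      unfold MachFM_enc
      simp only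
      rw [pow_add 2, pow_add 3, pow_mul 2, pow_mul 3]
      ring
    · rw [← pow_mul, ← pow_mul]
      refine MachFM_nmul p7 (MachFM_nd p7 p3 (by norm_num) _) (MachFM_nmul p7 (MachFM_nmul p7
        (MachFM_nmul p7 (MachFM_nd p7 p2 (by norm_num) _) (MachFM_nd p7 p11 (by norm_num) _))
        (MachFM_nd p7 p2 (by norm_num) _)) (MachFM_nd p7 p3 (by norm_num) _))
  have rr := (((((r1.trans (MachFM_star.step r2)).trans r3).trans (MachFM_star.step r4)).trans
    r5).trans (MachFM_star.step r6)).trans r7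
  obtain ⟨t, ht⟩ := rr
  refine ⟨t, ?_⟩
  rw [Function.iterate_succ_apply', e0, ht, r8]

theorem MachFM_H (a b τ : ℕ) : MachFM_star M hQ (H1, MachFM_enc a b τ) (F, 1) := by
  have p3 := Nat.prime_three
  have p11 : Nat.Prime 11 := by norm_num
  have r1 : MachFM_star M hQ (H1, 2 ^ a * (3 ^ b * 11 ^ τ)) (H1, 1 ^ a * (3 ^ b * 11 ^ τ)) :=
    MachFM_loop (l := 2) rfl (by norm_num) rfl _ _
  have r2 : MachFM_step M hQ (H1, 1 ^ a * (3 ^ b * 11 ^ τ)) = (H2, 3 ^ b * 11 ^ τ) := by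
    rw [MachFM_no (l := 2) rfl]
    · have e1 : MachFM_n M hQ H1 = (H2, 1) := rfl
      rw [e1]
      congr 1
      ring
    · rw [one_pow, one_mul]
      exact MachFM_nmul Nat.prime_two (MachFM_nd Nat.prime_two p3 (by norm_num) b)
        (MachFM_nd Nat.prime_two p11 (by norm_num) τ)
  have r3 : MachFM_star M hQ (H2, 3 ^ b * 11 ^ τ) (H2, 1 ^ b * 11 ^ τ) :=
    MachFM_loop (l := 3) rfl (by norm_num) rfl _ _
  have r4 : MachFM_step M hQ (H2, 1 ^ b * 11 ^ τ) = (H3, 11 ^ τ * 1) := by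
    rw [MachFM_no (l := 3) rfl]
    · have e1 : MachFM_n M hQ H2 = (H3, 1) := rfl
      rw [e1]
      congr 1
      ring
    · rw [one_pow, one_mul]
      exact MachFM_nd p3 p11 (by norm_num) τ
  have r5 : MachFM_star M hQ (H3, 11 ^ τ * 1) (H3, 1 ^ τ * 1) :=
    MachFM_loop (l := 11) rfl (by norm_num) rfl _ _
  have r6 : MachFM_step M hQ (H3, 1 ^ τ * 1) = (F, 1) := by
    rw [MachFM_no (l := 11) rfl]
    · have e1 : MachFM_n M hQ H3 = (F, 1) := rfl
      rw [e1]
      simp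
    · rw [one_pow, one_mul]
      norm_num
  have e : MachFM_enc a b τ = 2 ^ a * (3 ^ b * 11 ^ τ) := by unfold MachFM_enc; ring
  rw [e]
  exact ((((r1.trans (MachFM_star.step r2)).trans r3).trans (MachFM_star.step r4)).trans
    r5).trans (MachFM_star.step r6)

theorem MachFM_F (n : ℕ) : MachFM_step M hQ (F, n) = (F, n) := by
  rw [MachFM_yes (l := 1) rfl one_pos (one_mul n).symm]
  have e1 : MachFM_y M hQ F = (F, 1) := rfl
  rw [e1, mul_one]

theorem MachFM_Fiter (n t : ℕ) : (MachFM_step M hQ)^[t] (F, n) = (F, n) := by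
  induction t with
  | zero => rfl
  | succ t ih => rw [Function.iterate_succ_apply', ih, MachFM_F]

theorem MachFM_halt (k : ℕ) (s : M.S) (a b τ : ℕ) (h : M.halt ((M.step^[k] (s, a, b)).1) = true) :
    MachFM_star M hQ (MachFM_st M hQ s, MachFM_enc a b τ) (F, 1) := by
  induction k generalizing s a b τ with
  | zero =>
    simp only [Function.iterate_zero, id_eq] at h
    have e0 : MachFM_st M hQ s = H1 := by unfold MachFM_st; rw [if_pos h]
    rw [e0]
    exact MachFM_H a b τ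
  | succ k ih =>
    cases hs : M.halt s with
    | true =>
      have e0 : MachFM_st M hQ s = H1 := by unfold MachFM_st; rw [if_pos hs]
      rw [e0]
      exact MachFM_H a b τ
    | false =>
      rw [Function.iterate_succ_apply] at h
      obtain ⟨t, ht⟩ := MachFM_macro (hQ := hQ) hs a b τ
      refine MachFM_star.trans ⟨t + 1, ht⟩ ?_
      exact ih (M.step (s, a, b)).1 (M.step (s, a, b)).2.1 (M.step (s, a, b)).2.2 (τ + 1) h

theorem MachFM_run {c : M.S × ℕ × ℕ} (h : ¬ M.Halts c) (τ : ℕ) :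
    ∃ t, τ ≤ t ∧ (MachFM_step M hQ)^[t] (MachFM_st M hQ c.1, MachFM_enc c.2.1 c.2.2 0)
      = (MachFM_st M hQ (M.step^[τ] c).1,
        MachFM_enc (M.step^[τ] c).2.1 (M.step^[τ] c).2.2 τ) := by
  induction τ with
  | zero => exact ⟨0, le_rfl, rfl⟩
  | succ τ ih =>
    obtain ⟨t, ht, h1⟩ := ih
    have hs : M.halt (M.step^[τ] c).1 = false := by
      cases hh : M.halt (M.step^[τ] c).1 with
      | true => exact absurd ⟨τ, hh⟩ h
      | false => rfl
    obtain ⟨t', ht'⟩ := MachFM_macro (hQ := hQ) hs (M.step^[τ] c).2.1 (M.step^[τ] c).2.2 τ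
    refine ⟨(t' + 1) + t, by omega, ?_⟩
    rw [Function.iterate_add_apply, h1, ht', Function.iterate_succ_apply']

end

theorem fm_of_mach (M : Mach) (hfin : Finite M.S) (hQ : 2 ≤ M.Q) :
    ∃ (P : FM) (F : P.S) (st : M.S → P.S), Finite P.S ∧ (∀ s, 1 ≤ P.l s) ∧
      (∀ s, 1 ≤ (P.yes s).2) ∧ (∀ s, 1 ≤ (P.no s).2) ∧ ∀ (s : M.S) (b : ℕ),
      (M.Halts (s, 0, b) → ∃ t, P.step^[t] (st s, 3 ^ b) = (F, 1) ∧
        ∀ t' < t, (P.step^[t'] (st s, 3 ^ b)).1 ≠ F) ∧
      (¬ M.Halts (s, 0, b) → (∀ t, (P.step^[t] (st s, 3 ^ b)).1 ≠ F) ∧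
        Function.Injective fun t => P.step^[t] (st s, 3 ^ b)) := by
  classical
  refine ⟨MachFM_P M hQ, F, MachFM_st M hQ, MachFM_finite M.S M.Q, ?_, ?_, ?_, ?_⟩
  · intro x
    cases x <;> simp [MachFM_P, MachFM_l]
  · intro x
    cases x with
    | D1 s j =>
      change 1 ≤ (if h : (j : ℕ) + 1 < M.Q then (D1 s ⟨j + 1, h⟩, 1)
        else ((D1 s ⟨0, by omega⟩ : MachFM_St M.S M.Q), 5)).2
      split_ifs <;> simp
    | D2 s j j' =>
      change 1 ≤ (if h : (j' : ℕ) + 1 < M.Q then (D2 s j ⟨j' + 1, h⟩, 1)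
        else ((D2 s j ⟨0, by omega⟩ : MachFM_St M.S M.Q), 7)).2
      split_ifs <;> simp
    | M1 s j j' => exact Nat.one_le_two_pow
    | M2 s j j' => exact Nat.one_le_pow _ _ (by norm_num)
    | H1 => exact le_rfl
    | H2 => exact le_rfl
    | H3 => exact le_rfl
    | F => exact le_rfl
  · intro x
    cases x with
    | D2 s j j' =>
      have h : 0 < 2 ^ (M.B s (((j : ℕ) : ZMod M.Q), ((j' : ℕ) : ZMod M.Q))).1
        * 3 ^ (M.B s (((j : ℕ) : ZMod M.Q), ((j' : ℕ) : ZMod M.Q))).2 * 11 := by positivity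
      exact h
    | D1 s j => exact le_rfl
    | M1 s j j' => exact le_rfl
    | M2 s j j' => exact le_rfl
    | H1 => exact le_rfl
    | H2 => exact le_rfl
    | H3 => exact le_rfl
    | F => exact le_rfl
  · intro s b
    change (M.Halts (s, 0, b) → ∃ t, (MachFM_step M hQ)^[t] (MachFM_st M hQ s, 3 ^ b) = (F, 1) ∧
        ∀ t' < t, ((MachFM_step M hQ)^[t'] (MachFM_st M hQ s, 3 ^ b)).1 ≠ F) ∧
      (¬ M.Halts (s, 0, b) → (∀ t, ((MachFM_step M hQ)^[t] (MachFM_st M hQ s, 3 ^ b)).1 ≠ F) ∧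
        Function.Injective fun t => (MachFM_step M hQ)^[t] (MachFM_st M hQ s, 3 ^ b))
    have e0 : 3 ^ b = MachFM_enc 0 b 0 := by unfold MachFM_enc; simp
    set c0 : MachFM_St M.S M.Q × ℕ := (MachFM_st M hQ s, 3 ^ b) with hc0
    have hFabs : ∀ t t', ((MachFM_step M hQ)^[t] c0).1 = F → t ≤ t' →
        (MachFM_step M hQ)^[t'] c0 = (MachFM_step M hQ)^[t] c0 := by
      intro t t' h1 h2
      obtain ⟨d, rfl⟩ := Nat.exists_eq_add_of_le' h2
      have e1 : (MachFM_step M hQ)^[t] c0 = (F, ((MachFM_step M hQ)^[t] c0).2) := by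
        rw [← h1]
      rw [Function.iterate_add_apply, e1, MachFM_Fiter]
    constructor
    · rintro ⟨k, hk⟩
      have hst := MachFM_halt (hQ := hQ) k s 0 b 0 hk
      rw [← e0] at hst
      obtain ⟨t1, ht1⟩ := hst
      have hex : ∃ t, ((MachFM_step M hQ)^[t] c0).1 = F := ⟨t1, by rw [hc0, ht1]⟩
      refine ⟨Nat.find hex, ?_, fun t' ht' => Nat.find_min hex ht'⟩
      have h1 := Nat.find_spec hex
      have h2 : Nat.find hex ≤ t1 := Nat.find_min' hex (by rw [hc0, ht1])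
      have h3 := hFabs _ _ h1 h2
      rw [← h3, hc0, ht1]
    · intro hnh
      have hrun := fun τ => MachFM_run (hQ := hQ) hnh τ
      simp only [← e0] at hrun
      have hhalt : ∀ τ, M.halt (M.step^[τ] (s, 0, b)).1 = false := by
        intro τ
        cases hh : M.halt (M.step^[τ] (s, 0, b)).1 with
        | true => exact absurd ⟨τ, hh⟩ hnh
        | false => rfl
      constructor
      · intro t ht
        obtain ⟨t', ht', h1⟩ := hrun t
        have h2 := hFabs t t' ht ht'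
        have h3 : ((MachFM_step M hQ)^[t'] c0).1 = F := by rw [h2]; exact ht
        rw [hc0, h1] at h3
        unfold MachFM_st at h3
        rw [if_neg (by simp [hhalt t])] at h3
        exact absurd h3 (by simp)
      · intro t t' htt
        by_contra hne
        wlog hlt : t < t' generalizing t t' with H
        · exact H htt.symm (fun h => hne h.symm) (by omega)
        simp only at htt
        -- every configuration occurs before `t'`
        have hocc : ∀ n, ∃ m, m < t' ∧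
            (MachFM_step M hQ)^[n] c0 = (MachFM_step M hQ)^[m] c0 := by
          intro n
          induction n using Nat.strong_induction_on with
          | _ n ih =>
            by_cases hn : n < t'
            · exact ⟨n, hn, rfl⟩
            · obtain ⟨m, hm, h1⟩ := ih (n - t' + t) (by omega)
              refine ⟨m, hm, ?_⟩
              rw [← h1, Function.iterate_add_apply, htt, ← Function.iterate_add_apply]
              congr 2
              omega
        set bd := ∑ m ∈ Finset.range t', ((MachFM_step M hQ)^[m] c0).2 with hbd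
        obtain ⟨n, -, h1⟩ := hrun (bd + 1)
        obtain ⟨m, hm, h2⟩ := hocc n
        have h3 : ((MachFM_step M hQ)^[m] c0).2 ≤ bd :=
          Finset.single_le_sum (f := fun m => ((MachFM_step M hQ)^[m] c0).2)
            (fun _ _ => Nat.zero_le _) (Finset.mem_range.2 hm)
        rw [← h2, hc0, h1] at h3
        simp only [MachFM_enc] at h3
        have h4 : bd + 1 < 11 ^ (bd + 1) := Nat.lt_pow_self (by norm_num)
        have h5 : 11 ^ (bd + 1) ≤ 2 ^ (M.step^[bd + 1] (s, 0, b)).2.1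
            * 3 ^ (M.step^[bd + 1] (s, 0, b)).2.2 * 11 ^ (bd + 1) :=
          Nat.le_mul_of_pos_left _ (by positivity)
        omega

end OneRelP
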