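import Pool.Agent.Lib.MP_85de51_alP.Defs
import Pool.Agent.Lib.MP_85de51_alP.Comp
set_option autoImplicit false

/-!
# JOB Model: the module of a generalized Collatz function

Index type of the basis of `W`: `St = Option (Option ℕ)` or a three-constructor inductive type with
states `e`, `g`, `h r` (`r : ℕ`), basis `St × ℕ`, `W = (St × ℕ) →₀ k`. Operators on `W`, given on the
basis (write `e_n`, `g_n`, `h_{r,n}`; use `Finsupp.lsum`/`Finsupp.linearCombination`/`Finsupp.lift`):
* `b`: `n ↦ n + 1` in all states;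
* `c`: `e_n ↦ e_{n+1}`, `g_n ↦ g_{n+d}`, `h_{r,n} ↦ h_{r,n + al r}`;
* `v`: `e_n ↦ g_n`; `g_n ↦ h_{r, al r * m}` if `r = n % d ≠ rh`, `m = n / d`, and `g_n ↦ 0` if
`n % d = rh`; `h_{r,n} ↦ e_{n + be r}`;
* `a`: equal to `v` on `e_n`, `h_{r,n}` and `0` on `g_n`; `a' = a - v` (so `a' = 0` on `e_n`, `h_{r,n}` and
`a' = - v` on `g_n`).
Then `a b = b a`, `a' c = c a'` (on `g_n`: `(n + d) % d = n % d`, `(n + d) / d = m + 1`), `b c = c b`.
Let `M = Fin q → W`, `X` the operator of `exists_opX` for `(a, b)`, `Y` the one for `(a', c)`,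
`U = X - Y`, so `X - U = Y`. Write `ωⁱ` for `sl k i ω`. Then `X^q = dg q b`, `(X - U)^q = dg q c`
commute, `U ω⁰ = (v ω)⁰`, `U ω¹ = 0` (both `X` and `Y` map `ω¹` to `ω²`, `q ≥ 3`),
`X ω⁰ = (a ω)⁰ + ω¹`, `Y ω⁰ = (a' ω)⁰ + ω¹`. Let `e = (e_0)⁰`. Then `(X^q)^n e = (e_n)⁰`,
`(X^q)^n (U e) = (g_n)⁰`, `U (B^r (U e)) = (h_{r,0})⁰` for `r < d`, `r ≠ rh`,
`Y e = (e_0)¹`, `X (U e) = (g_0)¹`, `Y (h_{r,0})⁰ = (h_{r,0})¹`, and all relations `r1`-`r11` are
immediate (the operators `b`, `c` act on `ω¹` by `(b ω)¹`, `(c ω)¹`, and `U` kills all `ω¹`).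
`X (B^rh (U e)) = X (g_rh)⁰ = (a g_rh)⁰ + (g_rh)¹ = (g_rh)¹ ≠ 0`.

Linear independence: under the hypotheses `(U^j) ((X^q)^n₀ e)` is the basis vector `(v_j)⁰` where
`v_{3t} = e_{f^t n₀}`, `v_{3t+1} = g_{f^t n₀}`, `v_{3t+2} = h_{r, al r * m}` with `m = f^t n₀ / d`,
`r = f^t n₀ % d`, and the index map `j ↦ v_j ∈ St × ℕ` is injective: `v_{3t}` are pairwise different
by the injectivity of `t ↦ f^t n₀`, `v_{3t+1}` too, and `v_{3t+2}`: if `v_{3t+2} = v_{3t'+2}` then
applying `v` gives `f^{t+1} n₀ = f^{t'+1} n₀`, so `t = t'`. (Or: `U` acts on these vectors as a partial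
map.) `sl k 0` is injective and `Finsupp.single` of distinct indices are linearly independent
(`Finsupp.basisSingleOne.linearIndependent`, `LinearIndependent.comp`, `LinearIndependent.map'`).
-/

namespace OneRelP

/-- indices of the basis -/
inductive ModelIx
  | e (n : ℕ)
  | g (n : ℕ)
  | h (r n : ℕ)

open ModelIx

section

variable (k : Type) [Field k] (D : Clz)

/-- basis vectors -/
noncomputable def ModelB (i : ModelIx) : ModelIx →₀ k := Finsupp.single i 1

/-- operators given on the basis -/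
noncomputable def ModelT (f : ModelIx → (ModelIx →₀ k)) : Module.End k (ModelIx →₀ k) :=
  Finsupp.linearCombination k f

theorem Model_T_B (f : ModelIx → (ModelIx →₀ k)) (i : ModelIx) :
    ModelT k f (ModelB k i) = f i := by
  simp [ModelT, ModelB, Finsupp.linearCombination_single]

theorem Model_ext (A B : Module.End k (ModelIx →₀ k))
    (h : ∀ i, A (ModelB k i) = B (ModelB k i)) : A = B := by
  apply Finsupp.lhom_ext'
  intro i
  apply LinearMap.ext_ring
  exact h i

/-- the shift -/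
noncomputable def Model_b : ModelIx → (ModelIx →₀ k)
  | e n => ModelB k (e (n + 1))
  | g n => ModelB k (g (n + 1))
  | h r n => ModelB k (h r (n + 1))

noncomputable def Model_c : ModelIx → (ModelIx →₀ k)
  | e n => ModelB k (e (n + 1))
  | g n => ModelB k (g (n + D.d))
  | h r n => ModelB k (h r (n + D.al r))

noncomputable def Model_v : ModelIx → (ModelIx →₀ k)
  | e n => ModelB k (g n)
  | g n => if n % D.d = D.rh then 0 else ModelB k (h (n % D.d) (D.al (n % D.d) * (n / D.d)))
  | h r n => ModelB k (e (n + D.be r))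

noncomputable def Model_a : ModelIx → (ModelIx →₀ k)
  | e n => ModelB k (g n)
  | g _ => 0
  | h r n => ModelB k (e (n + D.be r))

theorem Model_ab : Commute (ModelT k (Model_a k D)) (ModelT k (Model_b k)) := by
  apply Model_ext
  intro i
  rw [Module.End.mul_apply, Module.End.mul_apply]
  cases i with
  | e n => simp [Model_T_B, Model_a, Model_b]
  | g n => simp [Model_T_B, Model_a, Model_b]
  | h r n =>
    simp only [Model_T_B, Model_a, Model_b]
    rw [show n + 1 + D.be r = n + D.be r + 1 by ring]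

theorem Model_bc : Commute (ModelT k (Model_b k)) (ModelT k (Model_c k D)) := by
  apply Model_ext
  intro i
  rw [Module.End.mul_apply, Module.End.mul_apply]
  cases i with
  | e n => simp [Model_T_B, Model_c, Model_b]
  | g n =>
    simp only [Model_T_B, Model_c, Model_b]
    rw [show n + 1 + D.d = n + D.d + 1 by ring]
  | h r n =>
    simp only [Model_T_B, Model_c, Model_b]
    rw [show n + 1 + D.al r = n + D.al r + 1 by ring]

theorem Model_avc :
    Commute (ModelT k (Model_a k D) - ModelT k (Model_v k D)) (ModelT k (Model_c k D)) := by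
  apply Model_ext
  intro i
  rw [Module.End.mul_apply, Module.End.mul_apply, LinearMap.sub_apply, LinearMap.sub_apply]
  cases i with
  | e n => simp [Model_T_B, Model_c, Model_a, Model_v]
  | g n =>
    simp only [Model_T_B, Model_c, Model_a, Model_v, zero_sub, map_neg, Nat.add_mod_right,
      Nat.add_div_right _ D.hd]
    split_ifs with h0
    · simp
    · rw [Model_T_B]
      simp only [Model_c]
      rw [mul_add, mul_one]
  | h r n => simp [Model_T_B, Model_c, Model_a, Model_v]

variable {k}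

theorem Model_dg {q : ℕ} {W : Type} [AddCommGroup W] [Module k W] (b : Module.End k W) (i : Fin q)
    (w : W) : dg q b (sl k i w) = sl k i (b w) := by
  funext j
  change b ((sl k i w) j) = (sl k i (b w)) j
  simp only [sl, LinearMap.single_apply]
  by_cases hj : j = i
  · subst hj; simp
  · simp [Pi.single_eq_of_ne hj]

variable (k)

/-- index dynamics -/
def ModelI (D : Clz) : ModelIx → ModelIx
  | e n => g n
  | g n => h (n % D.d) (D.al (n % D.d) * (n / D.d))
  | h r n => e (n + D.be r)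

theorem Model_I3 (n₀ t : ℕ) :
    (ModelI D)^[3 * t] (e n₀) = e (D.f^[t] n₀) := by
  induction t with
  | zero => rfl
  | succ t ih =>
    rw [show 3 * (t + 1) = 3 + 3 * t by ring, Function.iterate_add_apply, ih]
    rw [Function.iterate_succ_apply' D.f]
    rfl

theorem Model_I3g (n₀ t : ℕ) :
    (ModelI D)^[3 * t + 1] (e n₀) = g (D.f^[t] n₀) := by
  rw [Function.iterate_succ_apply', Model_I3]
  rfl

theorem Model_I3h (n₀ t : ℕ) :
    ∃ r n, (ModelI D)^[3 * t + 2] (e n₀) = h r n := by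
  rw [Function.iterate_succ_apply', Model_I3g]
  exact ⟨_, _, rfl⟩

theorem Model_inj (n₀ : ℕ) (hinj : Function.Injective (fun t => D.f^[t] n₀)) :
    Function.Injective (fun j => (ModelI D)^[j] (e n₀)) := by
  have key : ∀ t t', (ModelI D)^[3 * t] (e n₀) = (ModelI D)^[3 * t'] (e n₀) → t = t' := by
    intro t t' ht
    rw [Model_I3, Model_I3] at ht
    apply hinj
    simpa using ht
  have shift : ∀ (s j j' : ℕ), (ModelI D)^[j] (e n₀) = (ModelI D)^[j'] (e n₀) →
      (ModelI D)^[s + j] (e n₀) = (ModelI D)^[s + j'] (e n₀) := by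
    intro s j j' hj
    rw [Function.iterate_add_apply, Function.iterate_add_apply, hj]
  intro j j' hj
  simp only at hj
  obtain ⟨t, ht⟩ : ∃ t, j = 3 * t ∨ j = 3 * t + 1 ∨ j = 3 * t + 2 := ⟨j / 3, by omega⟩
  obtain ⟨t', ht'⟩ : ∃ t, j' = 3 * t ∨ j' = 3 * t + 1 ∨ j' = 3 * t + 2 := ⟨j' / 3, by omega⟩
  obtain ⟨r1, n1, h1⟩ := Model_I3h D n₀ t
  obtain ⟨r2, n2, h2⟩ := Model_I3h D n₀ t'
  rcases ht with ht | ht | ht <;> rcases ht' with ht' | ht' | ht' <;> subst ht <;> subst ht'
  · rw [key t t' hj]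
  · rw [Model_I3, Model_I3g] at hj; cases hj
  · rw [Model_I3, h2] at hj; cases hj
  · rw [Model_I3, Model_I3g] at hj; cases hj
  · have := shift 2 _ _ hj
    rw [show 2 + (3 * t + 1) = 3 * (t + 1) by ring, show 2 + (3 * t' + 1) = 3 * (t' + 1) by ring]
      at this
    have := key _ _ this
    omega
  · rw [Model_I3g, h2] at hj; cases hj
  · rw [Model_I3, h1] at hj; cases hj
  · rw [Model_I3g, h1] at hj; cases hj
  · have := shift 1 _ _ hj
    rw [show 1 + (3 * t + 2) = 3 * (t + 1) by ring, show 1 + (3 * t' + 2) = 3 * (t' + 1) by ring]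
      at this
    have := key _ _ this
    omega

theorem Model_step (n₀ : ℕ) (hh : ∀ t, D.f^[t] n₀ % D.d ≠ D.rh) (j : ℕ) :
    ModelT k (Model_v k D) (ModelB k ((ModelI D)^[j] (e n₀)))
      = ModelB k ((ModelI D)^[j + 1] (e n₀)) := by
  rw [Model_T_B, Function.iterate_succ_apply' (ModelI D)]
  obtain ⟨t, ht⟩ : ∃ t, j = 3 * t ∨ j = 3 * t + 1 ∨ j = 3 * t + 2 := ⟨j / 3, by omega⟩
  rcases ht with ht | ht | ht <;> subst ht
  · rw [Model_I3]; rfl
  · rw [Model_I3g]
    simp only [Model_v, ModelI]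
    rw [if_neg (hh t)]
  · obtain ⟨r1, n1, h1⟩ := Model_I3h D n₀ t
    rw [h1]; rfl

end

theorem model (k : Type) [Field k] (D : Clz) (q : ℕ) (hq : 3 ≤ q) :
    ∃ (M : Type) (_ : AddCommGroup M) (_ : Module k M) (X U : Module.End k M) (e : M),
      Commute (X ^ q) ((X - U) ^ q) ∧ Rels D q X U e ∧ X (((X ^ q) ^ D.rh) (U e)) ≠ 0 ∧
      ∀ n₀, (∀ t, D.f^[t] n₀ % D.d ≠ D.rh) → Function.Injective (fun t => D.f^[t] n₀) →
        LinearIndependent k (fun j : ℕ => (U ^ j) (((X ^ q) ^ n₀) e)) := by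
  obtain ⟨X, hXq, hX0, hX1⟩ := exists_opX q hq _ _ (Model_ab k D)
  obtain ⟨Y, hYq, hY0, hY1⟩ := exists_opX q hq _ _ (Model_avc k D)
  set i0 : Fin q := ⟨0, by omega⟩ with hi0
  set i1 : Fin q := ⟨1, by omega⟩ with hi1
  have hXY : X - (X - Y) = Y := by abel
  -- action of the powers
  have Be : ∀ (i : Fin q) (n m : ℕ), ((X ^ q) ^ n) (sl k i (ModelB k (e m)))
      = sl k i (ModelB k (e (m + n))) := by
    intro i n m
    rw [hXq]
    induction n with
    | zero => simp
    | succ n ih =>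
      rw [pow_succ', Module.End.mul_apply, ih, Model_dg, Model_T_B]
      rfl
  have Bg : ∀ (i : Fin q) (n m : ℕ), ((X ^ q) ^ n) (sl k i (ModelB k (g m)))
      = sl k i (ModelB k (g (m + n))) := by
    intro i n m
    rw [hXq]
    induction n with
    | zero => simp
    | succ n ih =>
      rw [pow_succ', Module.End.mul_apply, ih, Model_dg, Model_T_B]
      rfl
  have Bh : ∀ (i : Fin q) (n r m : ℕ), ((X ^ q) ^ n) (sl k i (ModelB k (h r m)))
      = sl k i (ModelB k (h r (m + n))) := by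
    intro i n r m
    rw [hXq]
    induction n with
    | zero => simp
    | succ n ih =>
      rw [pow_succ', Module.End.mul_apply, ih, Model_dg, Model_T_B]
      rfl
  have Be1 : ∀ (i : Fin q) (m : ℕ), (X ^ q) (sl k i (ModelB k (e m)))
      = sl k i (ModelB k (e (m + 1))) := by
    intro i m
    rw [hXq, Model_dg, Model_T_B]; rfl
  have Bg1 : ∀ (i : Fin q) (m : ℕ), (X ^ q) (sl k i (ModelB k (g m)))
      = sl k i (ModelB k (g (m + 1))) := by
    intro i m
    rw [hXq, Model_dg, Model_T_B]; rfl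
  have C1 : ∀ (i : Fin q) (x : ModelIx), (Y ^ q) (sl k i (ModelB k x))
      = sl k i (Model_c k D x) := by
    intro i x
    rw [hYq, Model_dg, Model_T_B]
  have U0 : ∀ w, (X - Y) (sl k i0 w) = sl k i0 (ModelT k (Model_v k D) w) := by
    intro w
    rw [LinearMap.sub_apply, hX0, hY0, LinearMap.sub_apply, map_sub]
    abel
  have U1 : ∀ w, (X - Y) (sl k i1 w) = 0 := by
    intro w
    rw [LinearMap.sub_apply, hX1 1 (by omega) le_rfl, hY1 1 (by omega) le_rfl, sub_self]
  have Ug : ∀ r < D.d, r ≠ D.rh → (X - Y) (sl k i0 (ModelB k (g r)))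
      = sl k i0 (ModelB k (h r 0)) := by
    intro r hr hr2
    rw [U0, Model_T_B]
    simp only [Model_v]
    rw [Nat.mod_eq_of_lt hr, Nat.div_eq_of_lt hr, mul_zero, if_neg hr2]
  have Ye : ∀ m, Y (sl k i0 (ModelB k (e m))) = sl k i1 (ModelB k (e m)) := by
    intro m
    rw [hY0, LinearMap.sub_apply, Model_T_B, Model_T_B]
    simp [Model_a, Model_v]
  have Yh : ∀ r m, Y (sl k i0 (ModelB k (h r m))) = sl k i1 (ModelB k (h r m)) := by
    intro r m
    rw [hY0, LinearMap.sub_apply, Model_T_B, Model_T_B]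
    simp [Model_a, Model_v]
  have Xg : ∀ m, X (sl k i0 (ModelB k (g m))) = sl k i1 (ModelB k (g m)) := by
    intro m
    rw [hX0, Model_T_B]
    simp [Model_a]
  have Ue : (X - Y) (sl k i0 (ModelB k (e 0))) = sl k i0 (ModelB k (g 0)) := by
    rw [U0, Model_T_B]; rfl
  refine ⟨Fin q → (ModelIx →₀ k), inferInstance, inferInstance, X, X - Y,
    sl k i0 (ModelB k (e 0)), ?_, ?_, ?_, ?_⟩
  · rw [hXY, hXq, hYq]
    have := Model_bc k D
    refine LinearMap.ext fun w => ?_
    rw [Module.End.mul_apply, Module.End.mul_apply]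
    funext i
    exact congrArg (fun T : Module.End k (ModelIx →₀ k) => T (w i)) this.eq
  · constructor
    · rw [hXY, Be1, C1]; rfl
    · rw [Be1, Ue, U0, Model_T_B, Bg1]; rfl
    · rw [hXY, Ue, Bg, C1]; rfl
    · rw [hXY, Ue, C1, U0, U0]
      simp only [Model_c]
      rw [Model_T_B, Model_T_B]
      simp only [Model_v, zero_add, Nat.mod_self, Nat.zero_mod, Nat.zero_div, mul_zero,
        Nat.div_self D.hd, mul_one]
      split_ifs with h0
      · simp
      · rw [C1]; simp [Model_c]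
    · rw [Ue, Bg, U0, Model_T_B]
      simp only [Model_v, zero_add]
      rw [Nat.mod_eq_of_lt D.hrh, if_pos rfl, map_zero]
    · rw [hXY, Ye, U1]
    · rw [hXY, Ye, Be1, U1]
    · intro i _
      rw [Ue, Xg, Bg, U1]
    · intro r hr hr2
      rw [hXY, Ue, Bg, zero_add, Ug r hr hr2, C1, Bh]
      rfl
    · intro r hr hr2 i _
      rw [Ue, Bg, zero_add, Ug r hr hr2, Bh, U0, Model_T_B, Be, zero_add, zero_add]
      rfl
    · intro r hr hr2 i _
      rw [hXY, Ue, Bg, zero_add, Ug r hr hr2, Yh, Bh, U1]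
  · rw [Ue, Bg, Xg]
    intro h0
    have h1 := congrFun h0 i1
    simp [sl, ModelB] at h1
  · intro n₀ hh hinj
    have h1 : (fun j : ℕ => ((X - Y) ^ j) (((X ^ q) ^ n₀) (sl k i0 (ModelB k (e 0)))))
        = fun j => sl k i0 (ModelB k ((ModelI D)^[j] (e n₀))) := by
      funext j
      rw [Be, zero_add]
      induction j with
      | zero => rfl
      | succ j ih =>
        rw [pow_succ', Module.End.mul_apply, ih, U0, Model_step k D n₀ hh]
    rw [h1]
    have h2 : LinearIndependent k (fun j => ModelB k ((ModelI D)^[j] (e n₀))) := by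
      have h3 : LinearIndependent k (fun x : ModelIx => ModelB k x) := by
        have := (Finsupp.basisSingleOne (R := k) (ι := ModelIx)).linearIndependent
        simpa [ModelB] using this
      exact h3.comp _ (Model_inj D n₀ hinj)
    refine h2.map' (sl k i0) ?_
    rw [LinearMap.ker_eq_bot]
    intro w w' hw
    have := congrFun hw i0
    simpa [sl] using this

end OneRelP
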