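import Pool.Agent.Lib.MP_85de51_alP.Defs
set_option autoImplicit false

/-!
# JOB RelsIff: unfolding the list of relators

`rels_iff`: `simp only [rels, List.mem_append, List.mem_cons, List.mem_map, List.mem_flatMap,
List.mem_filter, List.mem_range, ...]`; `Module.End.mul_apply`, `LinearMap.sub_apply`, `sub_eq_zero`,
`Nat.lt_succ_iff`, `pow_add`. `Rels.map`: use `pow_intertwine` for `X^q` and `(X - U)^q`.
-/

namespace OneRelP

variable {k V : Type*} [Field k] [AddCommGroup V] [Module k V]

theorem rels_iff (D : Clz) (q : ℕ) (X U : Module.End k V) (e : V) :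
    (∀ F ∈ rels D q X U, F e = 0) ↔ Rels D q X U e := by
  have hpow : ∀ (r i b : ℕ), (U * (X ^ q) ^ i * (U * (X ^ q) ^ r * U) - (X ^ q) ^ (i + b)) e = 0 ↔
      U (((X ^ q) ^ i) (U (((X ^ q) ^ r) (U e)))) = ((X ^ q) ^ (i + b)) e := by
    intro r i b
    rw [LinearMap.sub_apply, sub_eq_zero]
    rfl
  constructor
  · intro h
    have hm : ∀ F, F ∈ rels D q X U → F e = 0 := h
    constructor
    · have := hm (X ^ q - (X - U) ^ q) (by simp [rels])
      rwa [LinearMap.sub_apply, sub_eq_zero] at this
    · have := hm (U * X ^ q - X ^ q * U) (by simp [rels])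
      rwa [LinearMap.sub_apply, sub_eq_zero] at this
    · have := hm (((X ^ q) ^ D.d - (X - U) ^ q) * U) (by simp [rels])
      rwa [Module.End.mul_apply, LinearMap.sub_apply, sub_eq_zero] at this
    · have := hm ((U * (X - U) ^ q - (X - U) ^ q * U) * U) (by simp [rels])
      rwa [Module.End.mul_apply, LinearMap.sub_apply, sub_eq_zero] at this
    · exact hm (U * (X ^ q) ^ D.rh * U) (by simp [rels])
    · exact hm (U * (X - U)) (by simp [rels])
    · exact hm (U * X ^ q * (X - U)) (by simp [rels])
    · intro i hi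
      refine hm (U * (X ^ q) ^ i * X * U) ?_
      refine List.mem_append_left _ (List.mem_append_right _ ?_)
      exact List.mem_map.mpr ⟨i, List.mem_range.mpr (Nat.lt_succ_of_le hi), rfl⟩
    · intro r hr hne
      have := hm (((X - U) ^ q - (X ^ q) ^ D.al r) * (U * (X ^ q) ^ r * U)) (by
        refine List.mem_append_right _ (List.mem_flatMap.mpr ⟨r, ?_, ?_⟩)
        · exact List.mem_filter.mpr ⟨List.mem_range.mpr hr, by simpa using hne⟩
        · refine List.mem_append_left _ (List.mem_append_left _ ?_)
          exact List.mem_singleton.mpr rfl)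
      rwa [Module.End.mul_apply, LinearMap.sub_apply, sub_eq_zero] at this
    · intro r hr hne i hi
      refine (hpow r i (D.be r)).mp (hm _ ?_)
      refine List.mem_append_right _ (List.mem_flatMap.mpr ⟨r, ?_, ?_⟩)
      · exact List.mem_filter.mpr ⟨List.mem_range.mpr hr, by simpa using hne⟩
      · refine List.mem_append_left _ (List.mem_append_right _ ?_)
        exact List.mem_map.mpr ⟨i, List.mem_range.mpr (Nat.lt_succ_of_le hi), rfl⟩
    · intro r hr hne i hi
      refine hm (U * (X ^ q) ^ i * (X - U) * (U * (X ^ q) ^ r * U)) ?_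
      refine List.mem_append_right _ (List.mem_flatMap.mpr ⟨r, ?_, ?_⟩)
      · exact List.mem_filter.mpr ⟨List.mem_range.mpr hr, by simpa using hne⟩
      · refine List.mem_append_right _ ?_
        exact List.mem_map.mpr ⟨i, List.mem_range.mpr (Nat.lt_succ_of_le hi), rfl⟩
  · intro h F hF
    rcases List.mem_append.mp hF with hF | hF
    · rcases List.mem_append.mp hF with hF | hF
      · simp only [List.mem_cons, List.not_mem_nil, or_false] at hF
        rcases hF with rfl | rfl | rfl | rfl | rfl | rfl | rfl
        · rw [LinearMap.sub_apply, sub_eq_zero]; exact h.r1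
        · rw [LinearMap.sub_apply, sub_eq_zero]; exact h.r2
        · rw [Module.End.mul_apply, LinearMap.sub_apply, sub_eq_zero]; exact h.r3
        · rw [Module.End.mul_apply, LinearMap.sub_apply, sub_eq_zero]; exact h.r4
        · exact h.r5
        · exact h.r6
        · exact h.r7
      · obtain ⟨i, hi, rfl⟩ := List.mem_map.mp hF
        exact h.r8 i (Nat.le_of_lt_succ (List.mem_range.mp hi))
    · obtain ⟨r, hr, hF⟩ := List.mem_flatMap.mp hF
      obtain ⟨hr1, hr2⟩ := List.mem_filter.mp hr
      have hr1' := List.mem_range.mp hr1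
      have hr2' : r ≠ D.rh := by simpa using hr2
      rcases List.mem_append.mp hF with hF | hF
      · rcases List.mem_append.mp hF with hF | hF
        · rw [List.mem_singleton] at hF
          subst hF
          rw [Module.End.mul_apply, LinearMap.sub_apply, sub_eq_zero]
          exact h.r9 r hr1' hr2'
        · obtain ⟨i, hi, rfl⟩ := List.mem_map.mp hF
          exact (hpow r i (D.be r)).mpr
            (h.r10 r hr1' hr2' i (Nat.le_of_lt_succ (List.mem_range.mp hi)))
      · obtain ⟨i, hi, rfl⟩ := List.mem_map.mp hF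
        exact h.r11 r hr1' hr2' i (Nat.le_of_lt_succ (List.mem_range.mp hi))

theorem targ_apply (D : Clz) (q : ℕ) (X U : Module.End k V) (e : V) :
    targ D q X U e = X (((X ^ q) ^ D.rh) (U e)) := rfl

theorem pow_intertwine {W : Type*} [AddCommGroup W] [Module k W]
    (X : Module.End k V) (X' : Module.End k W) (ι : V →ₗ[k] W)
    (hX : ∀ m, ι (X m) = X' (ι m)) (n : ℕ) (m : V) : ι ((X ^ n) m) = (X' ^ n) (ι m) := by
  induction n generalizing m with
  | zero => rfl
  | succ n ih => rw [pow_succ, pow_succ, Module.End.mul_apply, Module.End.mul_apply, ih, hX]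

/-- transport of the relations along an embedding -/
theorem Rels.map {W : Type*} [AddCommGroup W] [Module k W] (D : Clz) (q : ℕ)
    (X U : Module.End k V) (e : V) (X' U' : Module.End k W) (ι : V →ₗ[k] W)
    (hX : ∀ m, ι (X m) = X' (ι m)) (hU : ∀ m, ι (U m) = U' (ι m)) (h : Rels D q X U e) :
    Rels D q X' U' (ι e) := by
  have hB : ∀ m, ι ((X ^ q) m) = (X' ^ q) (ι m) := pow_intertwine X X' ι hX q
  have hY : ∀ m, ι ((X - U) m) = (X' - U') (ι m) := by
    intro m
    rw [LinearMap.sub_apply, LinearMap.sub_apply, map_sub, hX, hU]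
  have hC : ∀ m, ι (((X - U) ^ q) m) = ((X' - U') ^ q) (ι m) :=
    pow_intertwine (X - U) (X' - U') ι hY q
  have hBn : ∀ n m, ι (((X ^ q) ^ n) m) = ((X' ^ q) ^ n) (ι m) :=
    pow_intertwine (X ^ q) (X' ^ q) ι hB
  constructor
  · have := congrArg ι h.r1
    rwa [hB, hC] at this
  · have := congrArg ι h.r2
    rwa [hU, hB, hB, hU] at this
  · have := congrArg ι h.r3
    rwa [hBn, hC, hU] at this
  · have := congrArg ι h.r4
    rwa [hU, hC, hC, hU, hU, hU] at this
  · have := congrArg ι h.r5
    rwa [hU, hBn, hU, map_zero] at this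
  · have := congrArg ι h.r6
    rwa [hU, hY, map_zero] at this
  · have := congrArg ι h.r7
    rwa [hU, hB, hY, map_zero] at this
  · intro i hi
    have := congrArg ι (h.r8 i hi)
    rwa [hU, hBn, hX, hU, map_zero] at this
  · intro r hr hne
    have := congrArg ι (h.r9 r hr hne)
    rwa [hC, hU, hBn, hU, hBn, hU, hBn, hU] at this
  · intro r hr hne i hi
    have := congrArg ι (h.r10 r hr hne i hi)
    rwa [hU, hBn, hU, hBn, hU, hBn] at this
  · intro r hr hne i hi
    have := congrArg ι (h.r11 r hr hne i hi)
    rwa [hU, hBn, hY, hU, hBn, hU, map_zero] at this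

end OneRelP
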