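import Pool.Agent.Lib.MP_85de51_alP.Undec
import Pool.Agent.Lib.MP_85de51_alP.BrF
import Pool.Agent.Lib.MP_85de51_alP.BrB
import Pool.Agent.Lib.MP_85de51_alP.RelsIff
import Pool.Agent.Lib.MP_85de51_alP.Fwd
import Pool.Agent.Lib.MP_85de51_alP.Ext
import Pool.Agent.Lib.MP_85de51_alP.Model
set_option autoImplicit false

/-!
# Undecidability of the membership problem
-/

namespace OneRelP

open MP_85de51_al

attribute [local instance 100] LieRing.ofAssociativeRing

theorem member_inst (k : Type) [Field k] (p a : ℕ) [Fact p.Prime] [CharP k p]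
    (D : Clz) (n : ℕ) (t : ℕ) (ht : D.f^[t] n = D.rh)
    (hlt : ∀ t' < t, D.f^[t'] n % D.d ≠ D.rh) :
    Member k (relP k (p ^ a)) (inst k D (p ^ a) n) := by
  apply member_of
  intro V _ _ s u e h0 h1 h2
  rw [targ_apply]
  refine fwd D (p ^ a) s u (s * u - u * s) rfl ((relL_iff p a s u).1 h0) e
    ((rels_iff D (p ^ a) _ u e).1 h1) n t ?_ ht hlt
  rw [← pow_mul]
  exact h2

theorem not_member_inst (k : Type) [Field k] (p a : ℕ) [Fact p.Prime] [CharP k p]
    (hq : 3 ≤ p ^ a) (D : Clz) (n : ℕ) (h1 : ∀ t, D.f^[t] n % D.d ≠ D.rh)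
    (h2 : Function.Injective (fun t => D.f^[t] n)) :
    ¬ Member k (relP k (p ^ a)) (inst k D (p ^ a) n) := by
  obtain ⟨M, _, _, X, U, e, hc, hR, hT, hli⟩ := model k D (p ^ a) hq
  obtain ⟨V, _, _, s, u, ι, hι, hU, hX, hc', hs⟩ := extend p a X U hc _ (hli n h1 h2)
  have hB : ∀ (j : ℕ) (m : M), ι (((X ^ (p ^ a)) ^ j) m) =
      (((s * u - u * s) ^ (p ^ a)) ^ j) (ι m) := by
    intro j m
    exact pow_intertwine _ _ ι (fun m => pow_intertwine _ _ ι hX _ m) j m
  refine not_member_of k D (p ^ a) n V s u (ι e) ((relL_iff p a s u).2 hc')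
    ((rels_iff D (p ^ a) _ u _).2 (hR.map D (p ^ a) X U e _ u ι hX hU)) ?_ ?_
  · rw [pow_mul, ← hB]
    exact hs
  · rw [targ_apply, ← hU, ← hB, ← hX]
    intro h
    exact hT (hι (by rw [h, map_zero]))

theorem computable_powX [Primcodable (FreeMagma (Fin 3))]
    (hmul : Computable₂ fun a b : FreeMagma (Fin 3) => a * b) : Computable powX := by
  have h : Computable fun n : ℕ =>
      (Nat.rec gz (fun _ w => gv * w) n : FreeMagma (Fin 3)) :=
    Computable.nat_rec (f := fun n : ℕ => n) (g := fun _ => gz)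
      (h := fun _ (q : ℕ × FreeMagma (Fin 3)) => gv * q.2) Computable.id (Computable.const gz)
      (hmul.comp (Computable.const gv) (Computable.snd.comp Computable.snd)).to₂
  refine h.of_eq fun n => ?_
  unfold powX
  induction n with
  | zero => rfl
  | succ n ih =>
    rw [Function.iterate_succ_apply', ← ih]

theorem computable_inst (k : Type) [Field k] [Primcodable k] [Primcodable (FreeMagma (Fin 3))]
    (hmul : Computable₂ fun a b : FreeMagma (Fin 3) => a * b) (D : Clz) (q : ℕ) :
    Computable (inst k D q) := by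
  have h1 : Computable fun n : ℕ => gs * powX (q * n) :=
    hmul.comp (Computable.const gs) ((computable_powX hmul).comp
      (Primrec.nat_mul.to_comp.comp (Computable.const q) Computable.id))
  have h2 : Computable fun n : ℕ => [((1 : k), gs * powX (q * n))] :=
    Computable.list_cons.comp (Computable.pair (Computable.const 1) h1) (Computable.const [])
  have h3 : Computable fun n : ℕ => ([((1 : k), gs * powX (q * n))] :: [(1, gs)] :: [(1, gu)] ::
    (rels D q (X0 k) (U0 k)).map (toL k)) :=
    Computable.list_cons.comp h2 (Computable.const _)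
  exact Computable.pair h3 (Computable.const _)

/-- MAIN THEOREM. -/
theorem main (k : Type) [Field k] (p a : ℕ) [Fact p.Prime] [CharP k p] (hq : 3 ≤ p ^ a)
    [Primcodable k] [Primcodable (FreeMagma (Fin 3))]
    (hmul : Computable₂ fun a b : FreeMagma (Fin 3) => a * b) :
    ¬ ComputablePred (fun x : List (List (k × FreeMagma (Fin 3))) ×
      List (k × FreeMagma (Fin 3)) => Member k (relP k (p ^ a)) x) := by
  intro h
  obtain ⟨D, inp, hinp, hD⟩ := exists_clz
  apply ComputablePred.halting_problem 0
  obtain ⟨_, h1⟩ := h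
  classical
  refine ⟨Classical.decPred _, ?_⟩
  have h2 : Computable fun c : Nat.Partrec.Code => inst k D (p ^ a) (inp (Encodable.encode c)) :=
    (computable_inst k hmul D (p ^ a)).comp (hinp.to_comp.comp Computable.encode)
  refine (h1.comp h2).of_eq ?_
  intro c
  simp only [decide_eq_decide]
  have h3 := hD (Encodable.encode c)
  rw [Denumerable.ofNat_encode] at h3
  constructor
  · intro hm
    by_contra hc
    obtain ⟨h4, h5⟩ := h3.2 hc
    exact not_member_inst k p a hq D _ h4 h5 hm
  · intro hc
    obtain ⟨t, ht, hlt⟩ := h3.1 hc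
    exact member_inst k p a D _ t ht hlt

end OneRelP
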