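import Pool.Agent.Lib.MP_85de51_alP.Defs
set_option autoImplicit false

/-!
# JOB Poly: noncommutative polynomials as lists of bracketings

Represent `F` by a list of pairs (coefficient, word in the letters `0`, `1`); the word
`[i₁, ..., i_n]` gives the bracketing `g_{i₁} * (g_{i₂} * (... * (g_{i_n} * gz)))` with
`g_0 = gs`, `g_1 = gu`. Its value satisfies
`π (lmon k (word)) = (s_{i₁} * ... * s_{i_n}) (π (lmon k gz))` by induction on the word
(`lmon k (a * b) = ⁅lmon k a, lmon k b⁆` by `rfl`). Show by `FreeAlgebra.induction` that every `F` is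
`∑ c • (product of ι's)` for such a list: constants: `[(c, [])]`, letters: `[(1, [i])]`, sums: append,
products: all products of terms (`List.flatMap`, `List.map`; or prove it for
`F ∈ Submodule.span` of the monomials; `FreeAlgebra.equivMonoidAlgebraFreeMonoid` is another way).
`lexp k l = (l.map fun p => p.1 • lmon k p.2).sum`.
-/

namespace OneRelP

open MP_85de51_al

/-- the list `l` represents the element `F · z` -/
def Sem (k : Type) [Field k] (F : FreeAlgebra k (Fin 2)) (l : List (k × FreeMagma (Fin 3))) :
    Prop :=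
  ∀ (V : Type) [AddCommGroup V] [Module k V] (π : FreeLieAlgebra k (Fin 3) →ₗ[k] V)
    (s u : Module.End k V), (∀ w, π ⁅lmon k gs, w⁆ = s (π w)) →
    (∀ w, π ⁅lmon k gu, w⁆ = u (π w)) →
    π (lexp k l) = FreeAlgebra.lift k ![s, u] F (π (lmon k gz))

/-- the letters -/
def polyLetter (i : Fin 2) : FreeMagma (Fin 3) := ![gs, gu] i

/-- the bracketing of a word -/
def polyWord (w : List (Fin 2)) : FreeMagma (Fin 3) := w.foldr (fun i m => polyLetter i * m) gz

/-- value of a word in the free algebra -/
noncomputable def polyMon (k : Type) [Field k] (w : List (Fin 2)) : FreeAlgebra k (Fin 2) :=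
  (w.map (FreeAlgebra.ι k)).prod

/-- value of a list of words -/
noncomputable def polyVal (k : Type) [Field k] (l : List (k × List (Fin 2))) :
    FreeAlgebra k (Fin 2) :=
  (l.map fun p => p.1 • polyMon k p.2).sum

theorem polyVal_append (k : Type) [Field k] (l m : List (k × List (Fin 2))) :
    polyVal k (l ++ m) = polyVal k l + polyVal k m := by
  simp [polyVal]

theorem polyMon_append (k : Type) [Field k] (v w : List (Fin 2)) :
    polyMon k (v ++ w) = polyMon k v * polyMon k w := by
  simp [polyMon]

theorem poly_mul_one (k : Type) [Field k] (c : k) (v : List (Fin 2))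
    (m : List (k × List (Fin 2))) :
    polyVal k (m.map fun q => (c * q.1, v ++ q.2)) = (c • polyMon k v) * polyVal k m := by
  induction m with
  | nil => simp [polyVal]
  | cons q m ih =>
    have h1 : polyVal k ((q :: m).map fun q => (c * q.1, v ++ q.2)) =
        (c * q.1) • polyMon k (v ++ q.2) + polyVal k (m.map fun q => (c * q.1, v ++ q.2)) := by
      simp [polyVal]
    have h2 : polyVal k (q :: m) = q.1 • polyMon k q.2 + polyVal k m := by
      simp [polyVal]
    rw [h1, h2, ih, mul_add, polyMon_append, smul_mul_smul_comm]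

theorem poly_mul (k : Type) [Field k] (l m : List (k × List (Fin 2))) :
    polyVal k (l.flatMap fun p => m.map fun q => (p.1 * q.1, p.2 ++ q.2)) =
      polyVal k l * polyVal k m := by
  induction l with
  | nil => simp [polyVal]
  | cons p l ih =>
    rw [List.flatMap_cons, polyVal_append, ih, poly_mul_one]
    have h2 : polyVal k (p :: l) = p.1 • polyMon k p.2 + polyVal k l := by
      simp [polyVal]
    rw [h2, add_mul]

theorem poly_exists (k : Type) [Field k] (F : FreeAlgebra k (Fin 2)) :
    ∃ l : List (k × List (Fin 2)), polyVal k l = F := by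
  induction F using FreeAlgebra.induction with
  | grade0 r =>
    refine ⟨[(r, [])], ?_⟩
    simp [polyVal, polyMon, Algebra.algebraMap_eq_smul_one]
  | grade1 x =>
    refine ⟨[(1, [x])], ?_⟩
    simp [polyVal, polyMon]
  | mul a b ha hb =>
    obtain ⟨la, rfl⟩ := ha
    obtain ⟨lb, rfl⟩ := hb
    exact ⟨_, poly_mul k la lb⟩
  | add a b ha hb =>
    obtain ⟨la, rfl⟩ := ha
    obtain ⟨lb, rfl⟩ := hb
    exact ⟨_, polyVal_append k la lb⟩

theorem poly_word_value (k : Type) [Field k] (V : Type) [AddCommGroup V] [Module k V]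
    (π : FreeLieAlgebra k (Fin 3) →ₗ[k] V)
    (s u : Module.End k V) (hs : ∀ w, π ⁅lmon k gs, w⁆ = s (π w))
    (hu : ∀ w, π ⁅lmon k gu, w⁆ = u (π w)) (w : List (Fin 2)) :
    π (lmon k (polyWord w)) =
      FreeAlgebra.lift k ![s, u] (polyMon k w) (π (lmon k gz)) := by
  induction w with
  | nil => simp [polyWord, polyMon]
  | cons i w ih =>
    have h1 : lmon k (polyWord (i :: w)) = ⁅lmon k (polyLetter i), lmon k (polyWord w)⁆ := rfl
    have h2 : polyMon k (i :: w) = FreeAlgebra.ι k i * polyMon k w := by simp [polyMon]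
    rw [h1, h2, map_mul, FreeAlgebra.lift_ι_apply, Module.End.mul_apply, ← ih]
    fin_cases i
    · exact hs _
    · exact hu _

theorem exists_sem (k : Type) [Field k] (F : FreeAlgebra k (Fin 2)) : ∃ l, Sem k F l := by
  obtain ⟨l, rfl⟩ := poly_exists k F
  refine ⟨l.map fun p => (p.1, polyWord p.2), ?_⟩
  intro V _ _ π s u hs hu
  induction l with
  | nil => simp [lexp, polyVal]
  | cons p l ih =>
    have h1 : lexp k ((p :: l).map fun p => (p.1, polyWord p.2)) =
        p.1 • lmon k (polyWord p.2) + lexp k (l.map fun p => (p.1, polyWord p.2)) := by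
      simp [lexp]
    have h2 : polyVal k (p :: l) = p.1 • polyMon k p.2 + polyVal k l := by
      simp [polyVal]
    rw [h1, h2, map_add, map_add, ih, LinearMap.add_apply, map_smul, map_smul,
      LinearMap.smul_apply, poly_word_value k V π s u hs hu]

end OneRelP
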