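import Pool.Agent.Lib.MP_85de51_alP.FMClz
import Pool.Agent.Lib.MP_85de51_alP.MachFM
set_option autoImplicit false

/-!
# A generalized Collatz function with an undecidable halting problem
-/

namespace OneRelP

open Pool.Agent.WreathContraction

theorem primrec_pow' (m : ℕ) : Primrec fun n : ℕ => m ^ n := by
  have h : Primrec (Nat.rec (motive := fun _ => ℕ) 1 (fun _ r => r * m)) :=
    Primrec.nat_rec₁ (f := fun _ r => r * m) 1
      (Primrec.nat_mul.comp Primrec.snd (Primrec.const m)).to₂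
  refine h.of_eq fun n => ?_
  induction n with
  | zero => rfl
  | succ n ih =>
    show (_ : ℕ) * m = m ^ (n + 1)
    rw [pow_succ, ← ih]

theorem primrec_betaF' (Q d₀ d₁ : ℕ) : Primrec (betaF Q d₀ d₁) := by
  unfold betaF
  refine Primrec.ite (Primrec.eq.comp Primrec.fst (Primrec.const 0)) Primrec.id ?_
  refine Primrec.pair (Primrec.nat_div.comp Primrec.fst (Primrec.const 2)) ?_
  refine Primrec.nat_add.comp ?_ (Primrec.nat_mul.comp (Primrec.const Q) Primrec.snd)
  refine Primrec.ite (Primrec.eq.comp (Primrec.nat_mod.comp Primrec.fst (Primrec.const 2))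
    (Primrec.const 1)) (Primrec.const d₁) (Primrec.const d₀)

theorem primrec_beta' (Q d₀ d₁ : ℕ) : Primrec (beta Q d₀ d₁) := by
  have h : Primrec fun n : ℕ => (betaF Q d₀ d₁)^[n] (n, 0) :=
    Primrec.nat_iterate (f := fun n : ℕ => n) (g := fun n : ℕ => (n, 0))
      (h := fun _ p => betaF Q d₀ d₁ p) Primrec.id (Primrec.pair Primrec.id (Primrec.const 0))
      ((primrec_betaF' Q d₀ d₁).comp Primrec.snd).to₂
  exact Primrec.snd.comp h

/-- There is a generalized Collatz function with an undecidable halting problem, such that in the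
case of non-halting the orbit is infinite. -/
theorem exists_clz : ∃ (D : Clz) (inp : ℕ → ℕ), Primrec inp ∧
    (∀ n, ((Nat.Partrec.Code.eval (Denumerable.ofNat Nat.Partrec.Code n) 0).Dom →
        ∃ t, D.f^[t] (inp n) = D.rh ∧ ∀ t' < t, D.f^[t'] (inp n) % D.d ≠ D.rh) ∧
      (¬ (Nat.Partrec.Code.eval (Denumerable.ofNat Nat.Partrec.Code n) 0).Dom →
        (∀ t, D.f^[t] (inp n) % D.d ≠ D.rh) ∧
        Function.Injective (fun t => D.f^[t] (inp n)))) := by
  obtain ⟨M, hfin, hQ, s₀, d₀, d₁, h⟩ := exists_mach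
  obtain ⟨P, F, st, hPf, hl, hy, hn, hP⟩ := fm_of_mach M hfin hQ
  obtain ⟨D, m, idx, hidx, hinj, hD, hF, hFD⟩ := clz_of_fm P hPf hl hy hn F
  have hm : 0 < m := lt_of_le_of_lt (Nat.zero_le _) (hidx F)
  have hiter : ∀ (t : ℕ) (c : P.S × ℕ), D.f^[t] (m * c.2 + idx c.1) =
      m * (P.step^[t] c).2 + idx (P.step^[t] c).1 := by
    intro t
    induction t with
    | zero => intro c; rfl
    | succ t ih =>
      intro c
      rw [Function.iterate_succ_apply, hD, ih, Function.iterate_succ_apply]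
  have hcode : ∀ c c' : P.S × ℕ, m * c.2 + idx c.1 = m * c'.2 + idx c'.1 → c = c' := by
    intro c c' hcc
    have h1 := congrArg (· % m) hcc
    simp only [Nat.mul_add_mod, Nat.mod_eq_of_lt (hidx _)] at h1
    have h2 := hinj h1
    rw [h2] at hcc
    have h3 : m * c.2 = m * c'.2 := by omega
    exact Prod.ext h2 (Nat.eq_of_mul_eq_mul_left hm h3)
  refine ⟨D, fun n => m * 3 ^ (beta M.Q d₀ d₁ n) + idx (st s₀), ?_, ?_⟩
  · exact Primrec.nat_add.comp (Primrec.nat_mul.comp (Primrec.const m)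
      ((primrec_pow' 3).comp (primrec_beta' M.Q d₀ d₁))) (Primrec.const _)
  · intro n
    obtain ⟨h1, h2⟩ := hP s₀ (beta M.Q d₀ d₁ n)
    constructor
    · intro hh
      obtain ⟨t, ht, hlt⟩ := h1 ((h n).2 hh)
      refine ⟨t, ?_, ?_⟩
      · have := hiter t (st s₀, 3 ^ (beta M.Q d₀ d₁ n))
        rw [ht] at this
        rw [this, ← hF, mul_one]
      · intro t' ht' hc
        have := hiter t' (st s₀, 3 ^ (beta M.Q d₀ d₁ n))
        rw [this] at hc
        exact hlt t' ht' (hFD _ hc)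
    · intro hh
      obtain ⟨h3, h4⟩ := h2 (fun hc => hh ((h n).1 hc))
      refine ⟨?_, ?_⟩
      · intro t hc
        have := hiter t (st s₀, 3 ^ (beta M.Q d₀ d₁ n))
        rw [this] at hc
        exact h3 t (hFD _ hc)
      · intro t t' htt
        apply h4
        have e1 := hiter t (st s₀, 3 ^ (beta M.Q d₀ d₁ n))
        have e2 := hiter t' (st s₀, 3 ^ (beta M.Q d₀ d₁ n))
        have htt' : D.f^[t] (m * 3 ^ (beta M.Q d₀ d₁ n) + idx (st s₀)) =
          D.f^[t'] (m * 3 ^ (beta M.Q d₀ d₁ n) + idx (st s₀)) := htt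
        rw [e1, e2] at htt'
        exact hcode _ _ htt'

end OneRelP
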